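import Mathlib

/-!
# MP_5ee2d0_ag, Theorems M and N: vocabulary and the determinant argument

`G` is the geometric generic member of the family of a Calabi-Yau threefold `X` over (a covering of)
its moduli space, `P` its Picard group, `hG i x` the dimension of `H^i(G, x)`.

`Mbar` is a normal projective variety of dimension `h = h^(2,1)(X)` (helper8's covering): `B` is the
set of its prime divisors `b`. Over the local ring of `b` there are `K`-trivial projective
`Q`-factorial models `XX` of `G` with reduced special fibre `X_b`; `Germ` collects the data of all of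
them (they differ by flops).
-/

namespace Pool.Agent.H33.MN

/-- The models over the local ring of one prime divisor `b` of the base. -/
structure Germ (P : Type) [AddCommGroup P] where
  /-- the small modifications of one model -/
  Mo : Type
  /-- the group of Weil divisor classes, the same for all models -/
  Lam : Type
  [grp : AddCommGroup Lam]
  /-- the restriction to the geometric generic fibre -/
  rho : Lam →+ P
  /-- nef over the base -/
  Nef : Mo → Lam → Prop
  /-- Cartier -/
  Car : Mo → Lam → Prop
  /-- the restriction to the special fibre `X_b` is semiample -/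
  SA : Mo → Lam → Prop
  /-- the dimension of `H^i(X_b, O(x))` -/
  h : Mo → ℕ → Lam → ℕ

attribute [instance] Germ.grp

namespace Germ

variable {P : Type} [AddCommGroup P]

/-- `RΓ(X_b, O(x)) = 0` for the class `x` on the model `mu` -/
def Acyclic (g : Germ P) (mu : g.Mo) (x : g.Lam) : Prop := ∀ i, g.h mu i x = 0

/-- some extension `x` of a positive multiple of `L` is a Cartier class on some model such that all
the positive multiples of `x` are acyclic on `X_b` -/
def Good (g : Germ P) (L : P) : Prop :=
  ∃ (mu : g.Mo) (k : ℕ) (x : g.Lam), 0 < k ∧ g.rho x = k • L ∧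
    ∀ j : ℕ, 0 < j → g.Car mu (j • x) ∧ g.Acyclic mu (j • x)

end Germ

/-- The family over the base. -/
structure Moduli (P : Type) [AddCommGroup P] (NefG : P → Prop) (hG : ℕ → P → ℕ) where
  /-- the prime divisors of the base -/
  B : Type
  germ : B → Germ P
  /-- the intersection number of `b` with the power `h - 1` of the Hodge bundle `λ` -/
  wt : B → ℚ
  /-- the self-intersection number `λ^h` of the Hodge bundle -/
  top : ℚ
  /-- Griffiths, local Torelli: the Hodge bundle is nef and big -/
  top_pos : 0 < top
  /-- the given smooth model at an interior divisor `b`; one of the models at the others -/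
  mu0 : ∀ b, (germ b).Mo
  /-- the closure of a divisor class of `G` -/
  lift : ∀ b, P →+ (germ b).Lam
  rho_lift : ∀ b x, (germ b).rho (lift b x) = x
  /-- `b` is an interior divisor: the model `mu0 b` is smooth over the local ring -/
  Int : B → Prop
  car_int : ∀ b x, Int b → (germ b).Car (mu0 b) (lift b x)
  /-- all models are `Q`-factorial -/
  qfac : ∀ b mu x, ∃ k : ℕ, 0 < k ∧ ∀ j : ℕ, (germ b).Car mu (j • k • x)
  /-- Wilson: the boundary has finitely many components, and a nef class of `G` is nef at all
  interior divisors but finitely many -/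
  fin : ∀ L, NefG L → {b | ¬ (Int b ∧ (germ b).Nef (mu0 b) (lift b L))}.Finite
  /-- Degree of the determinant of cohomology (Snapper; Knudsen, Mumford; Kollár; Steenbrink): glue
  models over the codimension one points, `x b` Cartier, extending `m L`; then the degree `p k` of
  the determinant of `R π_* O(k x)` on (limits of) curves which are complete intersections of
  members of `|N λ|` is a polynomial of degree at most four in `k`, equal to `λ^h` for `k = 0`; if
  `k m L` is acyclic on `G` then it is a sum of local contributions, zero at `b` if `k x b` is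
  acyclic on `X_b`. -/
  det : ∀ (m : ℕ) (L : P) (S : Finset B) (mu : ∀ b, (germ b).Mo) (x : ∀ b, (germ b).Lam), 0 < m →
    (∀ b, (germ b).rho (x b) = m • L) → (∀ b, (germ b).Car (mu b) (x b)) →
    (∀ b, b ∉ S → Int b ∧ mu b = mu0 b ∧ x b = m • lift b L) →
    ∃ p : Polynomial ℚ, p.natDegree ≤ 4 ∧ p.eval 0 = top ∧
      ∀ k : ℕ, 0 < k → (∀ i, hG i (k • m • L) = 0) →
        ∃ o : B →₀ ℚ, p.eval (k : ℚ) = o.sum (fun b c => c * wt b) ∧
          ∀ b, (germ b).Acyclic (mu b) (k • x b) → o b = 0

namespace Moduli

variable {P : Type} [AddCommGroup P] {NefG : P → Prop} {hG : ℕ → P → ℕ} (M : Moduli P NefG hG)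

/-- The determinant argument: a nef class `L` of the generic member all whose positive multiples are
acyclic cannot be good at all the prime divisors `b` with `λ^(h-1).b ≠ 0`. -/
theorem exists_bad (L : P) (hL : NefG L) (hac : ∀ k : ℕ, 0 < k → ∀ i, hG i (k • L) = 0)
    (hstd : ∀ b, M.Int b → (M.germ b).Nef (M.mu0 b) (M.lift b L) → ∀ k : ℕ, 0 < k →
      (M.germ b).Acyclic (M.mu0 b) (k • M.lift b L))
    (hgood : ∀ b, M.wt b ≠ 0 → (M.germ b).Good L) : False := by
  classical
  -- the finite set of the exceptional divisors
  have hfin := M.fin L hL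
  let S : Finset M.B := hfin.toFinset
  have hS : ∀ b, b ∉ S → M.Int b ∧ (M.germ b).Nef (M.mu0 b) (M.lift b L) := by
    intro b hb
    by_contra hcon
    exact hb (hfin.mem_toFinset.2 hcon)
  -- at every `b` an extension of a multiple of `L` with all multiples Cartier, good if possible
  have hch : ∀ b : M.B, ∃ (mu : (M.germ b).Mo) (k : ℕ) (x : (M.germ b).Lam), 0 < k ∧
      (M.germ b).rho x = k • L ∧ (∀ j : ℕ, 0 < j → (M.germ b).Car mu (j • x)) ∧
      (M.wt b ≠ 0 → ∀ j : ℕ, 0 < j → (M.germ b).Acyclic mu (j • x)) := by
    intro b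
    by_cases hb : M.wt b = 0
    · obtain ⟨k, hk, hj⟩ := M.qfac b (M.mu0 b) (M.lift b L)
      refine ⟨M.mu0 b, k, k • M.lift b L, hk, ?_, fun j _ => hj j, fun h => absurd hb h⟩
      rw [map_nsmul, M.rho_lift]
    · obtain ⟨mu, k, x, hk, hx, hj⟩ := hgood b hb
      exact ⟨mu, k, x, hk, hx, fun j h => (hj j h).1, fun _ j h => (hj j h).2⟩
  choose mu k x hk hx hcar hacy using hch
  -- a common multiple
  let m : ℕ := ∏ b ∈ S, k b
  have hm : 0 < m := Finset.prod_pos fun b _ => hk b
  have hdvd : ∀ b ∈ S, ∃ c : ℕ, 0 < c ∧ c * k b = m := by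
    intro b hb
    obtain ⟨c, hc⟩ := Finset.dvd_prod_of_mem k hb
    refine ⟨c, ?_, by rw [mul_comm]; exact hc.symm⟩
    rcases Nat.eq_zero_or_pos c with h0 | h0
    · exfalso
      rw [h0, mul_zero] at hc
      have : m = 0 := hc
      omega
    · exact h0
  choose! c hc0 hc using hdvd
  let mu' : ∀ b, (M.germ b).Mo := fun b => if b ∈ S then mu b else M.mu0 b
  let x' : ∀ b, (M.germ b).Lam := fun b => if b ∈ S then c b • x b else m • M.lift b L
  have hrho : ∀ b, (M.germ b).rho (x' b) = m • L := by
    intro b
    by_cases hb : b ∈ S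
    · simp only [x', hb, if_true]
      rw [map_nsmul, hx, smul_smul, hc b hb]
    · simp only [x', hb, if_false]
      rw [map_nsmul, M.rho_lift]
  have hcar' : ∀ b, (M.germ b).Car (mu' b) (x' b) := by
    intro b
    by_cases hb : b ∈ S
    · simp only [x', mu', hb, if_true]
      exact hcar b _ (hc0 b hb)
    · simp only [x', mu', hb, if_false]
      rw [← map_nsmul]
      exact M.car_int b _ (hS b hb).1
  obtain ⟨p, hdeg, hp0, hp⟩ := M.det m L S mu' x' hm hrho hcar' (fun b hb =>
    ⟨(hS b hb).1, by simp only [mu', hb, if_false], by simp only [x', hb, if_false]⟩)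
  -- all values at positive integers vanish
  have hzero : ∀ n : ℕ, 0 < n → p.eval (n : ℚ) = 0 := by
    intro n hn
    obtain ⟨o, ho, ho'⟩ := hp n hn (fun i => by rw [smul_smul]; exact hac _ (Nat.mul_pos hn hm) i)
    rw [ho, Finsupp.sum]
    refine Finset.sum_eq_zero fun b _ => ?_
    by_cases hw : M.wt b = 0
    · rw [hw, mul_zero]
    · have : o b = 0 := by
        apply ho'
        by_cases hb : b ∈ S
        · simp only [x', mu', hb, if_true]
          rw [smul_smul]
          exact hacy b hw _ (Nat.mul_pos hn (hc0 b hb))
        · simp only [x', mu', hb, if_false]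
          rw [smul_smul]
          exact hstd b (hS b hb).1 (hS b hb).2 _ (Nat.mul_pos hn hm)
      rw [this, zero_mul]
  have hpz : p = 0 := by
    refine Polynomial.eq_zero_of_infinite_isRoot p ?_
    refine Set.infinite_of_injective_forall_mem (f := fun n : ℕ => ((n + 1 : ℕ) : ℚ)) ?_ ?_
    · intro a b hab
      have h : ((a + 1 : ℕ) : ℚ) = ((b + 1 : ℕ) : ℚ) := hab
      have h' : a + 1 = b + 1 := by exact_mod_cast h
      omega
    · intro n
      exact hzero (n + 1) (Nat.succ_pos n)
  have htop := M.top_pos
  rw [← hp0, hpz] at htop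
  simp at htop

end Moduli

end Pool.Agent.H33.MN
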