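import Pool.Agent.H33.MN.Iface

/-!
# MP_5ee2d0_ag, Theorem N: a component of the special fibre whose double surface is abelian

`V` is a klt projective threefold, `(V, D)` is plt, `K_V + D ~ 0`, `D` is an abelian surface and
numerically trivial on itself, `h^1(V, O) = 1`, `h^2(V, O) = h^3(V, O) = 0`.
-/

namespace Pool.Agent.H33.MN

/-- `z` is a torsion element -/
def Tor {C : Type} [AddCommGroup C] (z : C) : Prop := ∃ k : ℕ, 0 < k ∧ k • z = 0

section Tor

variable {C : Type} [AddCommGroup C]

lemma Tor.neg {z : C} (h : Tor z) : Tor (-z) := by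
  obtain ⟨k, hk, h⟩ := h
  exact ⟨k, hk, by rw [smul_neg, h, neg_zero]⟩

lemma Tor.add {z y : C} (h : Tor z) (h' : Tor y) : Tor (z + y) := by
  obtain ⟨k, hk, h⟩ := h
  obtain ⟨l, hl, h'⟩ := h'
  refine ⟨k * l, Nat.mul_pos hk hl, ?_⟩
  rw [smul_add, mul_comm, mul_smul, h, smul_zero, zero_add, mul_comm, mul_smul, h', smul_zero]

lemma Tor.sub {z y : C} (h : Tor z) (h' : Tor y) : Tor (z - y) := by
  rw [sub_eq_add_neg]
  exact h.add h'.neg

lemma Tor.nsmul {z : C} (h : Tor z) (n : ℕ) : Tor (n • z) := by
  obtain ⟨k, hk, h⟩ := h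
  exact ⟨k, hk, by rw [smul_comm, h, smul_zero]⟩

lemma Tor.of_nsmul {z : C} {n : ℕ} (hn : 0 < n) (h : Tor (n • z)) : Tor z := by
  obtain ⟨k, hk, h⟩ := h
  exact ⟨k * n, Nat.mul_pos hk hn, by rw [mul_smul, h]⟩

end Tor

/-- A component `V` of the special fibre with its double surface `D`. `PD` is the Picard group of the
abelian surface `D`, `Null` the subgroup `Pic^0(D)`, and `hD` are the dimensions of the cohomology
groups of the line bundles on `D`. -/
structure Comp (PD : Type) [AddCommGroup PD] (Null : PD → Prop) (hD : PD → ℕ → ℕ) where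
  /-- the divisor class group of `V` -/
  C : Type
  [grp : AddCommGroup C]
  /-- the dimension of `H^q(V, O(z))` -/
  h : C → ℕ → ℕ
  /-- the class of `D` -/
  D : C
  /-- the restriction to `D` (`V` is smooth along `D`) -/
  r : C → PD
  r_add : ∀ z y, r (z + y) = r z + r y
  /-- the subgroup `Pic^0(V)`, the pull back of `Pic^0` of the Albanese curve -/
  Pic0 : C → Prop
  pic0_add : ∀ z y, Pic0 z → Pic0 y → Pic0 (z + y)
  pic0_neg : ∀ z, Pic0 z → Pic0 (-z)
  pic0_null : ∀ z, Pic0 z → Null (r z)
  /-- `H^1(V, O) → H^1(D, O)` is injective, so `Pic^0(V) → Pic^0(D)` has a finite kernel -/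
  pic0_ker : ∀ z, Pic0 z → Tor (r z) → Tor z
  /-- the cohomology sequence of `O(z - D) → O(z) → O_D(z)` -/
  seq : ∀ z, (∀ q, hD (r z) q = 0) → (∀ q, h (z - D) q = 0) → ∀ q, h z q = 0
  /-- A class of `Pic^0(V)` which is not torsion has no cohomology: the cohomology support loci are
  unions of translates of abelian subvarieties by torsion points (Simpson 1993, Green, Lazarsfeld),
  `Pic^0(V)` has dimension one, `h^2(O) = h^3(O) = 0` and `χ(O) = 0`. -/
  simpson : ∀ z, Pic0 z → ¬ Tor z → ∀ q, h z q = 0
  /-- there is an effective divisor of class `z` which does not meet `D` -/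
  Sec : C → Prop
  /-- if `z` is trivial on `D` and `H^1(V, O(z - D)) = 0` then the section `1` on `D` lifts -/
  sec : ∀ z, r z = 0 → h (z - D) 1 = 0 → Sec z
  /-- If `kD - z`, `k > 0`, `z` in `Pic^0(V)`, is the class of an effective divisor `D'` disjoint from
  `D`, then for small `u > 0` the pair `(V, (1 - u) D + (u / k) D')` is klt and its log canonical
  divisor is `-(u / k) z`, numerically trivial, and so torsion (Kawamata, Nakayama, Ambro). -/
  abundance : ∀ (k : ℕ) z, 0 < k → Pic0 z → Sec (k • D - z) → Tor z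
  /-- `H^1(V, O(jD))` -/
  H1 : ℕ → Type
  [zero : ∀ j, Zero (H1 j)]
  /-- multiplication by the section of `O(D)` -/
  mul : ∀ j, H1 j → H1 (j + 1)
  /-- multiplication by the power `j` of this section -/
  pow : ∀ j, H1 0 → H1 j
  pow_zero : ∀ a, pow 0 a = a
  pow_succ : ∀ j a, mul j (pow j a) = pow (j + 1) a
  pow_map_zero : ∀ j, pow j 0 = 0
  mul_surj : ∀ j, (∀ q, hD ((j + 1) • r D) q = 0) → ∀ a, ∃ b, mul j b = a
  /-- injectivity theorem for `O = K_V + D` (Esnault, Viehweg; Ambro 2014: `H^1(V, O)` injects into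
  `H^1(V - D, O)`) -/
  ambro : ∀ j a, pow j a = 0 → a = 0
  /-- if `(j + 1) D` is trivial on `D` and the multiplication `H^1(jD) → H^1((j + 1)D)` is injective
  then the section `1` on `D` lifts -/
  sec' : ∀ j : ℕ, (j + 1) • r D = 0 → (∀ a, mul j a = 0 → a = 0) → Sec ((j + 1) • D)

attribute [instance] Comp.grp Comp.zero

namespace Comp

variable {PD : Type} [AddCommGroup PD] {Null : PD → Prop} {hD : PD → ℕ → ℕ}
  (X : Comp PD Null hD)

lemma r_zero : X.r 0 = 0 := by
  have := X.r_add 0 0
  rw [add_zero] at this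
  exact left_eq_add.1 this

lemma r_nsmul (n : ℕ) (z : X.C) : X.r (n • z) = n • X.r z := by
  induction n with
  | zero => rw [zero_smul, zero_smul, X.r_zero]
  | succ n ih => rw [add_smul, one_smul, X.r_add, ih, add_smul, one_smul]

lemma r_neg (z : X.C) : X.r (-z) = -X.r z := by
  have := X.r_add z (-z)
  rw [add_neg_cancel, X.r_zero] at this
  exact (neg_eq_of_add_eq_zero_right this.symm).symm

lemma r_sub (z y : X.C) : X.r (z - y) = X.r z - X.r y := by
  rw [sub_eq_add_neg, X.r_add, X.r_neg, sub_eq_add_neg]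

lemma pic0_nsmul (n : ℕ) (hn : 0 < n) (z : X.C) (hz : X.Pic0 z) : X.Pic0 (n • z) := by
  induction n, hn using Nat.le_induction with
  | base => simpa using hz
  | succ n hn ih => rw [add_smul, one_smul]; exact X.pic0_add _ _ ih hz

/-- If a positive multiple of the normal bundle of `D` is the restriction of a class of `Pic^0(V)` then
this class is torsion. -/
theorem tor_of_eq (hnull : ∀ w, Null w → w ≠ 0 → ∀ q, hD w q = 0)
    (hadd : ∀ w w', Null w → Null w' → Null (w + w')) (hneg : ∀ w, Null w → Null (-w))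
    (hv : Null (X.r X.D)) (k : ℕ) (hk : 0 < k) (p : X.C) (hp : X.Pic0 p)
    (h : k • X.r X.D = X.r p) : Tor p := by
  classical
  -- the least such `k`
  have hex : ∃ k : ℕ, 0 < k ∧ ∃ p, X.Pic0 p ∧ k • X.r X.D = X.r p := ⟨k, hk, p, hp, h⟩
  obtain ⟨hm, q, hq, hmq⟩ := Nat.find_spec hex
  have hmin := fun n (hn : n < Nat.find hex) => Nat.find_min hex hn
  generalize Nat.find hex = m at hm hmq hmin
  -- the class `q` for the least `k` is torsion
  have hT : Tor q := by
    by_contra hcon
    have hnq : ¬ Tor (-q) := fun h => hcon (by simpa using h.neg)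
    -- `jD - q` is acyclic for `j < m`
    have hac : ∀ j : ℕ, j < m → ∀ i, X.h (j • X.D - q) i = 0 := by
      intro j
      induction j with
      | zero =>
        intro _ i
        rw [zero_smul, zero_sub]
        exact X.simpson _ (X.pic0_neg _ hq) hnq i
      | succ j ih =>
        intro hj i
        refine X.seq _ ?_ ?_ i
        · have hne : X.r ((j + 1) • X.D - q) ≠ 0 := by
            intro h0
            refine hmin (j + 1) hj ⟨Nat.succ_pos j, q, hq, ?_⟩
            rw [X.r_sub, X.r_nsmul, sub_eq_zero] at h0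
            exact h0
          refine hnull _ ?_ hne
          rw [X.r_sub, X.r_nsmul, sub_eq_add_neg]
          refine hadd _ _ ?_ (hneg _ (X.pic0_null _ hq))
          have hpos : ∀ n : ℕ, Null ((n + 1) • X.r X.D) := by
            intro n
            induction n with
            | zero => simpa using hv
            | succ n ih => rw [add_smul _ 1, one_smul]; exact hadd _ _ ih hv
          exact hpos j
        · intro i
          have e : (j + 1) • X.D - q - X.D = j • X.D - q := by
            rw [add_smul, one_smul]; abel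
          rw [e]
          exact ih (Nat.lt_of_succ_lt hj) i
    refine hcon (X.abundance m q hm hq (X.sec _ ?_ ?_))
    · rw [X.r_sub, X.r_nsmul, hmq, sub_self]
    · obtain ⟨j, rfl⟩ : ∃ j, m = j + 1 := ⟨m - 1, by omega⟩
      have e : (j + 1) • X.D - q - X.D = j • X.D - q := by
        rw [add_smul, one_smul]; abel
      rw [e]
      exact hac j (Nat.lt_succ_self j) 1
  -- `v` is torsion
  have hv' : Tor (X.r X.D) := by
    obtain ⟨l, hl, hl0⟩ := hT
    refine ⟨l * m, Nat.mul_pos hl hm, ?_⟩
    rw [mul_smul, hmq, ← X.r_nsmul, hl0, X.r_zero]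
  apply X.pic0_ker p hp
  rw [← h]
  exact hv'.nsmul k

/-- If the normal bundle of `D` is torsion then `D` moves: a positive multiple of `D` is linearly
equivalent to a divisor disjoint from `D`. -/
theorem exists_sec (hnull : ∀ w, Null w → w ≠ 0 → ∀ q, hD w q = 0)
    (hadd : ∀ w w', Null w → Null w' → Null (w + w'))
    (hv : Null (X.r X.D)) (ht : Tor (X.r X.D)) : ∃ j : ℕ, X.Sec ((j + 1) • X.D) := by
  classical
  obtain ⟨hm, hm0⟩ := Nat.find_spec ht
  have hmin := fun n (hn : n < Nat.find ht) => Nat.find_min ht hn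
  generalize Nat.find ht = m at hm hm0 hmin
  obtain ⟨j, rfl⟩ : ∃ j, m = j + 1 := ⟨m - 1, by omega⟩
  refine ⟨j, X.sec' j hm0 ?_⟩
  have hpos : ∀ n : ℕ, Null ((n + 1) • X.r X.D) := by
    intro n
    induction n with
    | zero => simpa using hv
    | succ n ih => rw [add_smul _ 1, one_smul]; exact hadd _ _ ih hv
  -- the powers up to `j` are onto
  have hsurj : ∀ i : ℕ, i ≤ j → ∀ a, ∃ b, X.pow i b = a := by
    intro i
    induction i with
    | zero => exact fun _ a => ⟨a, X.pow_zero a⟩
    | succ i ih =>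
      intro hi a
      have hne : (i + 1) • X.r X.D ≠ 0 := fun h0 => hmin (i + 1) (by omega) ⟨Nat.succ_pos i, h0⟩
      obtain ⟨b, hb⟩ := X.mul_surj i (hnull _ (hpos i) hne) a
      obtain ⟨d, hd⟩ := ih (by omega) b
      exact ⟨d, by rw [← X.pow_succ, hd, hb]⟩
  intro a ha
  obtain ⟨b, hb⟩ := hsurj j le_rfl a
  have h1 : X.pow (j + 1) b = 0 := by rw [← X.pow_succ, hb, ha]
  rw [← hb, X.ambro _ _ h1, X.pow_map_zero]

/-- a class `aD + p` with `p` in `Pic^0(V)` not torsion is acyclic for `a ≥ 0` -/
theorem acyclic (hnull : ∀ w, Null w → w ≠ 0 → ∀ q, hD w q = 0)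
    (hadd : ∀ w w', Null w → Null w' → Null (w + w')) (hneg : ∀ w, Null w → Null (-w))
    (hv : Null (X.r X.D)) (p : X.C) (hp : X.Pic0 p) (ht : ¬ Tor p) (a : ℕ) :
    ∀ q, X.h (a • X.D + p) q = 0 := by
  induction a with
  | zero =>
    intro q
    rw [zero_smul, zero_add]
    exact X.simpson p hp ht q
  | succ a ih =>
    intro q
    refine X.seq _ ?_ ?_ q
    · have hne : X.r ((a + 1) • X.D + p) ≠ 0 := by
        intro h0
        rw [X.r_add, X.r_nsmul] at h0
        have h1 : (a + 1) • X.r X.D = X.r (-p) := by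
          rw [X.r_neg]
          exact eq_neg_of_add_eq_zero_left h0
        have h2 := X.tor_of_eq hnull hadd hneg hv (a + 1) (Nat.succ_pos a) (-p)
          (X.pic0_neg p hp) h1
        exact ht (by simpa using h2.neg)
      refine hnull _ ?_ hne
      rw [X.r_add, X.r_nsmul]
      refine hadd _ _ ?_ (X.pic0_null _ hp)
      have hpos : ∀ n : ℕ, Null ((n + 1) • X.r X.D) := by
        intro n
        induction n with
        | zero => simpa using hv
        | succ n ih => rw [add_smul _ 1, one_smul]; exact hadd _ _ ih hv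
      exact hpos a
    · intro i
      have e : (a + 1) • X.D + p - X.D = a • X.D + p := by
        rw [add_smul, one_smul]; abel
      rw [e]
      exact ih i

end Comp

end Pool.Agent.H33.MN
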