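import Pool.Agent.H33.MN.Inner

/-!
# MP_5ee2d0_ag, Theorem N: two components which meet in an abelian surface, the alternative

The case in which `j x + V_i` is never nef: both components have `x`-trivial Mori fibrations.
-/

namespace Pool.Agent.H33.MN

/-- Two elements of square one which generate a finite group modulo the centre: a power of the
product is trivial. -/
theorem exists_pow_of_involutions {G : Type} [Group G] (S : Finset G)
    (hS : ∀ u : G, ∃ v ∈ S, ∀ w, (v⁻¹ * u) * w = w * (v⁻¹ * u)) (a b : G) (ha : a * a = 1)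
    (hb : b * b = 1) : ∃ k : ℕ, 0 < k ∧ (a * b) ^ k = 1 := by
  classical
  choose f hf hc using hS
  -- two powers with the same representative
  have hni : ¬ Function.Injective fun k : ℕ => f ((a * b) ^ k) := by
    intro hinj
    refine Set.infinite_range_of_injective hinj (S.finite_toSet.subset ?_)
    rintro _ ⟨k, rfl⟩
    exact hf _
  rw [Function.not_injective_iff] at hni
  obtain ⟨i, j, hij, hne⟩ := hni
  have key : ∀ i j : ℕ, i < j → f ((a * b) ^ i) = f ((a * b) ^ j) →
      ∃ k : ℕ, 0 < k ∧ (a * b) ^ k = 1 := by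
    intro i j hij h
    obtain ⟨k, rfl⟩ := Nat.exists_eq_add_of_lt hij
    have hcen : ∀ w, (a * b) ^ (k + 1) * w = w * (a * b) ^ (k + 1) := by
      have h1 := hc ((a * b) ^ i)
      have h2 := hc ((a * b) ^ (i + k + 1))
      rw [← h] at h2
      generalize f ((a * b) ^ i) = v at h1 h2
      have e : (a * b) ^ (k + 1) = (v⁻¹ * (a * b) ^ i)⁻¹ * (v⁻¹ * (a * b) ^ (i + k + 1)) := by
        have e3 : (a * b) ^ (i + k + 1) = (a * b) ^ i * (a * b) ^ (k + 1) := by
          rw [← pow_add, add_assoc]
        rw [e3, mul_inv_rev, inv_inv, mul_assoc, mul_inv_cancel_left, inv_mul_cancel_left]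
      intro w
      rw [e]
      have h1' : (v⁻¹ * (a * b) ^ i)⁻¹ * w = w * (v⁻¹ * (a * b) ^ i)⁻¹ := by
        have := h1 w
        calc (v⁻¹ * (a * b) ^ i)⁻¹ * w
            = (v⁻¹ * (a * b) ^ i)⁻¹ * (w * (v⁻¹ * (a * b) ^ i)) * (v⁻¹ * (a * b) ^ i)⁻¹ := by
              group
          _ = (v⁻¹ * (a * b) ^ i)⁻¹ * ((v⁻¹ * (a * b) ^ i) * w) * (v⁻¹ * (a * b) ^ i)⁻¹ := by
              rw [this]
          _ = w * (v⁻¹ * (a * b) ^ i)⁻¹ := by group
      rw [mul_assoc, h2, ← mul_assoc, h1', mul_assoc]
    have e1 : a⁻¹ = a := inv_eq_of_mul_eq_one_left ha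
    have e2 : b⁻¹ = b := inv_eq_of_mul_eq_one_left hb
    have hconj : a * (a * b) * a⁻¹ = (a * b)⁻¹ := by
      rw [mul_inv_rev, e1, e2, ← mul_assoc, ha, one_mul]
    have h3 : a * (a * b) ^ (k + 1) * a⁻¹ = ((a * b) ^ (k + 1))⁻¹ := by
      rw [← conj_pow, hconj, inv_pow]
    have h4 : (a * b) ^ (k + 1) = ((a * b) ^ (k + 1))⁻¹ := by
      rw [← h3, ← hcen a, mul_assoc, mul_inv_cancel, mul_one]
    refine ⟨(k + 1) + (k + 1), by omega, ?_⟩
    rw [pow_add]
    nth_rewrite 1 [h4]
    exact inv_mul_cancel _
  rcases Nat.lt_or_gt_of_ne hne with h | h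
  · exact key i j h hij
  · exact key j i h hij.symm

/-- The germ of the family at a prime divisor of the base with special fibre `X_b = V_0 ∪ V_1`,
`D = V_0 ∩ V_1` an abelian surface, with the Mori fibrations of the components. -/
structure AbelType {P : Type} [AddCommGroup P] (g : Germ P) (One : P → Prop)
    (Dom : g.Mo → g.Lam → Prop) where
  A : AbelGerm g One Dom
  /-- all models are `Q`-factorial -/
  qfac : ∀ mu x, ∃ k : ℕ, 0 < k ∧ ∀ j : ℕ, g.Car mu (j • k • x)
  /-- after flops of curves of degree zero, `V_i` has a Mori fibration `V_i → S` (the anticanonical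
  divisor, which is linearly equivalent to `D`, is relatively ample), and `x` is on `V_i` the pull back
  of a nef class of `S` -/
  Fib : Bool → g.Lam → Prop
  /-- cone theorem, existence of flips (Birkar, Cascini, Hacon and McKernan) and termination for the
  threefold `V_i`: if `j x + V_i` is not nef for all `j`, on all models on which `x` is nef, then
  there is such a Mori fibration -/
  mmp : ∀ mu i x, g.Nef mu x → (∀ mu', g.Nef mu' x → ∀ j : ℕ, ¬ g.Nef mu' (j • x + A.V i)) →
    Fib i x
  fib_nsmul : ∀ i x (k : ℕ), Fib i x → Fib i (k • x)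
  /-- `D` is mapped onto `S`, so the cohomology of a line bundle of `S` injects into the cohomology of
  its pull back to `D` (the degree of `D → S` is two if `S` is a surface, and the fibres are connected
  curves if `S` is a curve), and is equal to the cohomology of its pull back to `V_i` (Kawamata,
  Viehweg; `V_i` has rational singularities) -/
  fib_acyclic : ∀ mu i x, g.Nef mu x → g.Car mu x → Fib i x →
    (∀ q, A.hD ((A.comp mu false).r (A.res mu false x)) q = 0) →
    ∀ q, (A.comp mu i).h (A.res mu i x) q = 0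
  /-- the restriction of `x` to `D` is semiample -/
  SAD : g.Mo → g.Lam → Prop
  /-- Mumford, Abelian Varieties: a nef class of square zero on an abelian surface is semiample or
  all its positive multiples are acyclic; `x` has square zero on `D` if it has square zero on `V_0` -/
  mumford : ∀ mu x, g.Nef mu x → A.q mu false x x = 0 → (∀ j : ℕ, g.Car mu (j • x)) →
    (∀ j : ℕ, 0 < j → ∀ q, A.hD ((A.comp mu false).r (A.res mu false (j • x))) q = 0) ∨ SAD mu x
  /-- A multiple of the semiample class `x` on `D` is the pull back of an ample line bundle of the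
  image `C` of `D`. The group of automorphisms of `C` with this line bundle. -/
  Lin : g.Mo → g.Lam → Type
  [grp : ∀ mu x, Group (Lin mu x)]
  /-- If `x` has numerical dimension one then `C` is an elliptic curve, and the group is finite modulo
  the scalars, which are central. -/
  lin_fin : ∀ mu x, g.Nef mu x → SAD mu x → One (g.rho x) → (∀ i, Fib i x) →
    ∃ S : Finset (Lin mu x), ∀ u, ∃ v ∈ S, ∀ w, (v⁻¹ * u) * w = w * (v⁻¹ * u)
  /-- `l` is induced by the covering involution of `D → S` if `S` is a surface, and the identity if `S`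
  is a curve -/
  Cover : ∀ mu, Bool → ∀ x, Lin mu x → Prop
  cover : ∀ mu i x, g.Nef mu x → SAD mu x → Fib i x → ∃ l, Cover mu i x l ∧ l * l = 1
  /-- Kollár: gluing by a finite equivalence relation; `x` is semiample on `S` because it is on `D` -/
  glue : ∀ mu x, g.Nef mu x → SAD mu x → (∀ i, Fib i x) → ∀ l : Bool → Lin mu x,
    (∀ i, Cover mu i x (l i)) → (∃ k : ℕ, 0 < k ∧ (l false * l true) ^ k = 1) → g.SA mu x
  /-- `D` is mapped onto the base of both fibrations, so `V_0`, `V_1` and `D` have the same image -/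
  dom : ∀ mu x, g.Nef mu x → g.SA mu x → One (g.rho x) → (∀ i, Fib i x) → Dom mu x

attribute [instance] AbelType.grp

namespace AbelType

variable {P : Type} [AddCommGroup P] {g : Germ P} {One : P → Prop}
  {Dom : g.Mo → g.Lam → Prop} (T : AbelType g One Dom)

include T in
/-- Let `x` be nef on a model, of numerical dimension one on the generic fibre. Then an extension of
a multiple of `x` is acyclic on `X_b` with all its multiples, or nef and semiample on `X_b`. -/
theorem result (mu : g.Mo) (x : g.Lam) (hx : g.Nef mu x) (h1 : One (g.rho x)) :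
    ∃ (mu' : g.Mo) (k : ℕ) (y : g.Lam), 0 < k ∧ g.rho y = k • g.rho x ∧
      ((∀ l : ℕ, 0 < l → g.Car mu' (l • y) ∧ g.Acyclic mu' (l • y)) ∨
        (g.Nef mu' y ∧ g.SA mu' y ∧ Dom mu' y)) := by
  by_cases h : ∃ i mu', g.Nef mu' x ∧ ∃ j : ℕ, g.Nef mu' (j • x + T.A.V i)
  · obtain ⟨i, mu', hx', j, hj⟩ := h
    obtain ⟨k, y, hk, hy, h⟩ := T.A.inner mu' x hx' h1 j i hj
    exact ⟨mu', k, y, hk, hy, h⟩
  · push Not at h
    have hF : ∀ i, T.Fib i x := fun i => T.mmp mu i x hx (h i)
    obtain ⟨k, hk, hcar⟩ := T.qfac mu x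
    -- the Cartier multiple `y = k x`
    obtain ⟨n, rfl⟩ : ∃ n, k = n + 1 := ⟨k - 1, by omega⟩
    have hy : g.Nef mu ((n + 1) • x) := T.A.nef_nsmul mu x hx n
    have hFy : ∀ i, T.Fib i ((n + 1) • x) := fun i => T.fib_nsmul i x _ (hF i)
    have hry : g.rho ((n + 1) • x) = (n + 1) • g.rho x := map_nsmul _ _ _
    have hone : One (g.rho ((n + 1) • x)) := by
      rw [hry]
      exact T.A.one_nsmul _ _ (Nat.succ_pos n) h1
    refine ⟨mu, n + 1, (n + 1) • x, Nat.succ_pos n, hry, ?_⟩
    generalize (n + 1) • x = y at hcar hy hFy hone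
    have hcar' : ∀ j : ℕ, g.Car mu (j • y) := hcar
    have hq : T.A.q mu false y y = 0 := by
      have h := T.A.q_sum mu y hone
      have ha := T.A.q_nonneg mu false y hy
      have hb := T.A.q_nonneg mu true y hy
      linarith
    have hC1 : g.Car mu y := by simpa using hcar' 1
    rcases T.mumford mu y hy hq hcar' with h0 | h0
    · left
      intro j hj
      have hnefj : g.Nef mu (j • y) := by
        obtain ⟨m, rfl⟩ : ∃ m, j = m + 1 := ⟨j - 1, by omega⟩
        exact T.A.nef_nsmul mu y hy m
      refine ⟨hcar' j, T.A.mayer mu _ (hcar' j) (fun i => ?_) (h0 j hj)⟩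
      exact T.fib_acyclic mu i _ hnefj (hcar' j) (T.fib_nsmul i y j (hFy i)) (h0 j hj)
    · right
      have hSA : g.SA mu y := by
        choose l hl hl2 using fun i => T.cover mu i y hy h0 (hFy i)
        obtain ⟨S, hS⟩ := T.lin_fin mu y hy h0 hone hFy
        exact T.glue mu y hy h0 hFy l hl
          (exists_pow_of_involutions S hS (l false) (l true) (hl2 false) (hl2 true))
      exact ⟨hy, hSA, T.dom mu y hy hSA hone hFy⟩

end AbelType

end Pool.Agent.H33.MN
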