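import Mathlib

/-!
# MP_5ee2d0_ag, Theorem N: deformation of a fibration of the special fibre by periods

Let `pi : XX -> Delta` be a `K`-trivial model over the local ring of a prime divisor `b` of the base
of the family, with special fibre `X_b` (irreducible canonical, or slc with double surfaces) and
geometric generic fibre `G`, a Calabi-Yau threefold with `H^1(O) = 0`. Let `N` be nef on `X_b`,
extending `L` on `G`, `L^2 = 0`, and let `g : X_b -> C` be a fibre space over a curve with
`N` numerically the pull-back of an ample class. `Z` is a general fibre, `B0` the open set of `C`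
over which everything is locally trivial; `XX` is smooth near `Z` and `X_b` is smooth or normal
crossing there. `T` is the nearby fibre of `Z`: a compact oriented `4`-manifold in `X_t`, and these
manifolds form a fibre bundle over (a compact part of) `B0` (Ehresmann, Clemens).

The new argument: `H^1(T, ℂ)` has no invariants under `π_1(B0)`, because `H^1(X_b, ℂ) = 0`; hence
the class of the holomorphic three-form `Omega_t` of `X_t` restricted to `T`, an invariant element of
`H^3(T, ℂ)`, is zero for all `t`; its Taylor coefficients are the obstructions to lifting the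
fibration `g`, so `g` lifts to all orders and a fibre of `g` deforms to `G`.

All maps between the cohomology groups are linear; only what is used is recorded.
-/

namespace Pool.Agent.H33.MN

/-- The local systems of the fibration `g : X_b -> C` and of its nearby fibres. -/
structure LocalSystems where
  /-- loops in `B0` -/
  Loop : Type
  /-- `H^1(X_b, ℂ)` -/
  HX : Type
  /-- `H^1(Z, ℂ)` -/
  HZ : Type
  /-- `H^1(T, ℂ)` -/
  HT : Type
  /-- `H^3(T, ℂ)` -/
  HT3 : Type
  [zeroX : Zero HX]
  [zeroZ : Zero HZ]
  [zeroT : Zero HT]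
  [zeroT3 : Zero HT3]
  /-- the monodromy actions -/
  actZ : Loop → HZ → HZ
  actT : Loop → HT → HT
  act3 : Loop → HT3 → HT3
  /-- `h^1(X_b, O)` -/
  irr : ℕ
  /-- `H^1(X_b, ℂ)` has weights `0` and `1`, and `H^1(X_b, ℂ) -> H^1(X_b, O)` is onto with kernel
  conjugate to a part of `H^1(X_b, O)` (Du Bois; Kollár, Kovács: slc varieties are Du Bois) -/
  du_bois : irr = 0 → ∀ x : HX, x = 0
  /-- restriction -/
  res : HX → HZ
  res_zero : res 0 = 0
  /-- theorem of the fixed part: an invariant class on `Z` is the restriction of a class of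
  `g^-1(B0)` (Leray: `B0` is affine), and by strictness of one of weight at most one, which is the
  restriction of a class of `X_b` (Deligne, Hodge II and III) -/
  fixed_part : ∀ a : HZ, (∀ s, actZ s a = a) → ∃ x : HX, res x = a
  /-- specialisation -/
  sp : HZ → HT
  sp_zero : sp 0 = 0
  sp_act : ∀ s a, sp (actZ s a) = actT s (sp a)
  sp_injective : ∀ a a', sp a = sp a' → a = a'
  /-- the logarithm of the monodromy of `T` around `b` (zero if `X_b` is smooth along `Z`) -/
  mon : HT → HT
  mon_act : ∀ s a, mon (actT s a) = actT s (mon a)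
  mon_mon : ∀ a, mon (mon a) = 0
  /-- local invariant cycle theorem (Clemens, Schmid, Steenbrink, Deligne) -/
  ker_mon : ∀ a : HT, mon a = 0 → ∃ z : HZ, sp z = a
  /-- the inverse of the isomorphism `H^1(T, ℂ) -> H^3(T, ℂ)` given by the restriction of a
  polarisation: hard Lefschetz for the (log smooth) projective surface `Z` (Steenbrink, Guillén,
  Navarro Aznar, Saito) -/
  lef : HT3 → HT
  lef_act : ∀ s a, lef (act3 s a) = actT s (lef a)
  lef_eq_zero : ∀ a, lef a = 0 → a = 0

attribute [instance] LocalSystems.zeroX LocalSystems.zeroZ LocalSystems.zeroT LocalSystems.zeroT3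

namespace LocalSystems

variable (S : LocalSystems)

/-- `H^1(Z, ℂ)` has no invariants if `h^1(X_b, O) = 0` -/
theorem inv_Z (h : S.irr = 0) (a : S.HZ) (ha : ∀ s, S.actZ s a = a) : a = 0 := by
  obtain ⟨x, hx⟩ := S.fixed_part a ha
  rw [← hx, S.du_bois h x, S.res_zero]

/-- `H^1(T, ℂ)` has no invariants if `h^1(X_b, O) = 0` -/
theorem inv_T (h : S.irr = 0) (a : S.HT) (ha : ∀ s, S.actT s a = a) : a = 0 := by
  -- an invariant class in the kernel of `mon` is zero
  have key : ∀ b : S.HT, (∀ s, S.actT s b = b) → S.mon b = 0 → b = 0 := by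
    intro b hb hmb
    obtain ⟨z, hz⟩ := S.ker_mon b hmb
    have hzi : ∀ s, S.actZ s z = z := by
      intro s
      apply S.sp_injective
      rw [S.sp_act, hz, hb]
    rw [← hz, S.inv_Z h z hzi, S.sp_zero]
  have h1 : S.mon a = 0 := by
    apply key _ _ (S.mon_mon a)
    intro s
    rw [← S.mon_act, ha]
  exact key a ha h1

/-- `H^3(T, ℂ)` has no invariants if `h^1(X_b, O) = 0` -/
theorem inv_T3 (h : S.irr = 0) (a : S.HT3) (ha : ∀ s, S.act3 s a = a) : a = 0 := by
  apply S.lef_eq_zero
  apply S.inv_T h
  intro s
  rw [← S.lef_act, ha]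

end LocalSystems

/-- The periods of the holomorphic three-form on `T` and the obstructions to lifting the fibration
`g : X_b -> C`. -/
structure Lifting (S : LocalSystems) where
  /-- small parameters `t` different from `0`, in a sector -/
  Par : Type
  /-- the class in `H^3(T, ℂ)` of the holomorphic three-form `Omega_t` of `X_t`, restricted to `T` -/
  om : Par → S.HT3
  /-- it is the restriction of a class on `X_t`, and the manifolds `T` form a bundle over `B0` in
  `X_t` (Ehresmann; Clemens) -/
  om_act : ∀ t s, S.act3 s (om t) = om t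
  /-- Taylor coefficients at `t = 0` of `om`, in the canonical extension (the logarithmic de Rham
  cohomology) -/
  coef : ℕ → S.HT3
  coef_zero : (∀ t, om t = 0) → ∀ n, coef n = 0
  /-- liftings of `g`, over a disc of `B0`, to `XX` modulo `t^(n+1)` -/
  Lift : ℕ → Type
  trunc : ∀ n, Lift (n + 1) → Lift n
  /-- `g` itself -/
  g : Lift 0
  /-- sections over the disc of `R^1 g_* O`, a locally free sheaf -/
  Ob : Type
  [zeroO : Zero Ob]
  /-- the obstruction to lifting one step further -/
  ob : ∀ n, Lift n → Ob
  lift : ∀ n x, ob n x = 0 → ∃ y : Lift (n + 1), trunc n y = x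
  /-- the points of the disc -/
  Pt : Type
  /-- at the point `p`: cup product with the generator of `H^0(Z_p, Ω^2(log))` given by `Omega`, in
  `H^1(Z_p, Ω^2(log))`, a subspace of `H^3(T, ℂ)` -/
  val : Pt → Ob → S.HT3
  /-- `R^1 g_* O` is locally free and commutes with base change; `K` is trivial on `Z_p`; the Hodge
  spectral sequence degenerates (Hodge, Deligne, Steenbrink) -/
  val_injective : ∀ o, (∀ p, val p o = 0) → o = 0
  /-- if the fibration is lifted to order `n`, the Taylor coefficient of `t^(n+1)` is given by the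
  obstruction, up to sign (Bloch, Ran, Voisin: semiregularity) -/
  taylor : ∀ n x p, coef (n + 1) = val p (ob n x)

attribute [instance] Lifting.zeroO

namespace Lifting

variable {S : LocalSystems} (F : Lifting S)

theorem ob_eq_zero (h : S.irr = 0) (n : ℕ) (x : F.Lift n) : F.ob n x = 0 := by
  apply F.val_injective
  intro p
  rw [← F.taylor n x p]
  exact F.coef_zero (fun t => S.inv_T3 h _ (F.om_act t)) _

/-- the fibration lifts to all orders -/
theorem exists_lifts (h : S.irr = 0) :
    ∃ x : ∀ n, F.Lift n, x 0 = F.g ∧ ∀ n, F.trunc n (x (n + 1)) = x n := by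
  choose nxt hnxt using fun n (x : F.Lift n) => F.lift n x (F.ob_eq_zero h n x)
  let x : ∀ n, F.Lift n := fun n => Nat.rec F.g (fun k y => nxt k y) n
  refine ⟨x, rfl, fun n => ?_⟩
  exact hnxt n (x n)

end Lifting

/-- The special fibre `X_b` with the nef class `N`, extending `L`, fibred over a curve; `P` is the
Picard group of the geometric generic fibre `G`, and `Eff z` says that the class `z` is effective. -/
structure FibredFibre (P : Type) [AddCommGroup P] (Eff : P → Prop) (L : P) where
  S : LocalSystems
  F : Lifting S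
  /-- `h^1(X_b, O) = h^1(G, O) = 0`: Du Bois -/
  irr : S.irr = 0
  /-- intersection numbers on `G` with an ample class `A`: `x.A.A` and `x.y.A` -/
  deg : P → ℤ
  form : P → P → ℤ
  deg_add : ∀ x y, deg (x + y) = deg x + deg y
  form_add : ∀ x y z, form x (y + z) = form x y + form x z
  form_symm : ∀ x y, form x y = form y x
  /-- Hodge index theorem; numerically trivial classes are torsion because `H^1(G, O) = 0` -/
  index : ∀ x, deg x = 0 → 0 ≤ form x x → ∃ k : ℕ, 0 < k ∧ k • x = 0
  /-- `L^2 = 0`, `L ≠ 0` numerically -/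
  L_sq : form L L = 0
  L_pos : 0 < deg L
  /-- If `g` lifts to all orders then the fibres `Z` over the points of a disc lift to the completion
  of `XX` (Grothendieck), the Hilbert scheme of `XX` over `Delta` dominates `Delta` at the points
  `[Z]`, and `G` contains surfaces `Z_t` of class `z` specialising to them; different ones are
  disjoint, so `Z_t^2 = 0`, and `L.Z_t.A = N.Z.A = 0` -/
  spread : (∃ x : ∀ n, F.Lift n, x 0 = F.g ∧ ∀ n, F.trunc n (x (n + 1)) = x n) →
    ∃ z : P, Eff z ∧ 0 < deg z ∧ form z z = 0 ∧ form L z = 0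
  /-- multiples of effective divisors are effective -/
  eff : ∀ (z : P) (n : ℕ), Eff z → Eff (n • z)

namespace FibredFibre

variable {P : Type} [AddCommGroup P] {Eff : P → Prop} {L : P}

/-- a positive multiple of `L` is effective on `G` -/
theorem effective (X : FibredFibre P Eff L) : ∃ k : ℕ, 0 < k ∧ Eff (k • L) := by
  obtain ⟨z, hz, hdz, hzz, hLz⟩ := X.spread (X.F.exists_lifts X.irr)
  -- the additive maps
  let deg : P →+ ℤ := AddMonoidHom.mk' X.deg X.deg_add
  let form : P → P →+ ℤ := fun x => AddMonoidHom.mk' (X.form x) (X.form_add x)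
  have hform : ∀ x y, form x y = X.form x y := fun _ _ => rfl
  have hdeg : ∀ x, deg x = X.deg x := fun _ => rfl
  -- `u = deg z`, `w = deg L`; `u L - w z` is numerically trivial
  obtain ⟨u, hu⟩ : ∃ u : ℕ, X.deg z = (u : ℤ) := Int.eq_ofNat_of_zero_le hdz.le
  obtain ⟨w, hw⟩ : ∃ w : ℕ, X.deg L = (w : ℤ) := Int.eq_ofNat_of_zero_le X.L_pos.le
  have hu0 : 0 < u := by omega
  have hw0 : 0 < w := by
    have h1 := X.L_pos
    omega
  have hd : X.deg ((u : ℤ) • L - (w : ℤ) • z) = 0 := by
    rw [← hdeg, map_sub, map_zsmul, map_zsmul, hdeg, hdeg, hu, hw]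
    simp only [smul_eq_mul]
    ring
  have hlin : ∀ x, X.form x ((u : ℤ) • L - (w : ℤ) • z) = u * X.form x L - w * X.form x z := by
    intro x
    rw [← hform, map_sub, map_zsmul, map_zsmul, hform, hform]
    simp only [smul_eq_mul]
  have hq : X.form ((u : ℤ) • L - (w : ℤ) • z) ((u : ℤ) • L - (w : ℤ) • z) = 0 := by
    rw [hlin, X.form_symm _ L, X.form_symm _ z, hlin, hlin, X.form_symm z L, X.L_sq, hzz, hLz]
    ring
  obtain ⟨k, hk, hk0⟩ := X.index _ hd (le_of_eq hq.symm)
  refine ⟨k * u, Nat.mul_pos hk hu0, ?_⟩
  have : (k * u) • L = (k * w) • z := by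
    have h1 : k • ((u : ℤ) • L - (w : ℤ) • z) = 0 := hk0
    rw [smul_sub, sub_eq_zero] at h1
    rw [natCast_zsmul, natCast_zsmul, smul_smul, smul_smul] at h1
    exact h1
  rw [this]
  exact X.eff z _ hz

end FibredFibre

end Pool.Agent.H33.MN
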