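import Pool.Agent.H33.MN.Iface
import Pool.Agent.H33.MN.Period

/-! Numerical dimension one: a class which is semiample on the special fibre has an effective
multiple on the generic fibre. -/

namespace Pool.Agent.H33.MN

/-- The comparison of the special fibre `X_b` with the geometric generic fibre `G` for classes of
numerical dimension one. `c` is the degree of the second Chern class of `G`, `One L` says that
`L` has numerical dimension one on `G` (`L^2 = 0`, `L ≠ 0` numerically), `Dom mu x` that every
component of `X_b` and every double surface is mapped onto the image of the contraction of `X_b`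
defined by the semiample class `x` (no condition if `X_b` is irreducible). -/
structure CurveGerm {P : Type} [AddCommGroup P] (g : Germ P) (c : P → ℚ) (One : P → Prop)
    (Dom : g.Mo → g.Lam → Prop) (hG : ℕ → P → ℕ) where
  /-- A nef and semiample class `x` on `X_b`, of numerical dimension one and with `c.x = 0` on `G`,
  defines a fibre space of `X_b` over a curve. The Euler characteristics of the multiples of `x` are
  zero, so (additivity) the general fibre `Z`, with `K = 0` and at most Du Val and normal crossing
  singularities, has `χ(O) = 0`: a smooth abelian surface, or a cycle of ruled surfaces over elliptic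
  curves; `X_b` is smooth or normal crossing and the total space is smooth near `Z`. -/
  fib : ∀ (mu : g.Mo) (x : g.Lam), g.Nef mu x → g.SA mu x → c (g.rho x) = 0 → One (g.rho x) →
    Dom mu x → Nonempty (FibredFibre P (fun z => 0 < hG 0 z) (g.rho x))

/-- If a multiple of `L`, of numerical dimension one and with `c.L = 0`, extends to a class of a
model over `b` which is nef and semiample on the special fibre, then a positive multiple of `L` is
effective. -/
theorem CurveGerm.effective {P : Type} [AddCommGroup P] {g : Germ P} {c : P → ℚ} {One : P → Prop}
    {Dom : g.Mo → g.Lam → Prop} {hG : ℕ → P → ℕ} (C : CurveGerm g c One Dom hG) (L : P) (n : ℕ)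
    (hn : 0 < n) (hc : c (n • L) = 0) (h1 : One (n • L)) (mu : g.Mo) (x : g.Lam)
    (hx : g.rho x = n • L) (hnef : g.Nef mu x) (hsa : g.SA mu x) (hdom : Dom mu x) :
    ∃ k : ℕ, 0 < k ∧ 0 < hG 0 (k • L) := by
  obtain ⟨F⟩ := C.fib mu x hnef hsa (by rw [hx]; exact hc) (by rw [hx]; exact h1) hdom
  obtain ⟨k, hk, hk0⟩ := F.effective
  refine ⟨k * n, Nat.mul_pos hk hn, ?_⟩
  rwa [hx, smul_smul] at hk0

end Pool.Agent.H33.MN
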