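import Pool.Agent.H33.MN.Abel

/-!
# MP_5ee2d0_ag, Theorem N: two components which meet in an abelian surface

The special fibre is `X_b = V_0 ∪ V_1`, `D = V_0 ∩ V_1` is an abelian surface, `x` is a class of
numerical dimension one which is nef on a model, and so is `j x + V_i` for some `j` (the interval of
the movable extensions of `L` has interior points). Then some extension of a multiple of `L` is
acyclic on `X_b` with all its multiples, or nef and semiample on `X_b`.
-/

namespace Pool.Agent.H33.MN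

/-- The germ of the family at a prime divisor of the base with special fibre `X_b = V_0 ∪ V_1`,
`D = V_0 ∩ V_1` an abelian surface; `V_i` is `V false`, `V true`. All models are `Q`-factorial with
canonical singularities, the `(V_i, D)` are plt and `K + D ~ 0` on `V_i`. `One L` says that `L` has
numerical dimension one, and `Dom mu x` that the image of `X_b` under the contraction given by the
semiample class `x` is a curve onto which `V_0`, `V_1` and `D` are mapped, or the union of two curves,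
the images of `V_0` and `V_1`. -/
structure AbelGerm {P : Type} [AddCommGroup P] (g : Germ P) (One : P → Prop)
    (Dom : g.Mo → g.Lam → Prop) where
  /-- the Picard group of `D` -/
  PD : Type
  [grpD : AddCommGroup PD]
  /-- the subgroup `Pic^0(D)` -/
  Null : PD → Prop
  null_add : ∀ w w', Null w → Null w' → Null (w + w')
  null_neg : ∀ w, Null w → Null (-w)
  /-- dimensions of the cohomology groups of line bundles on `D` -/
  hD : PD → ℕ → ℕ
  /-- Mumford, Abelian Varieties, II.8 -/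
  null_acyclic : ∀ w, Null w → w ≠ 0 → ∀ q, hD w q = 0
  /-- The components. `h^1(V_i, O) = 1`: since `h^1(X_b, O) = h^2(X_b, O) = 0`, `H^1(D, O)` is the
  direct sum of the `H^1(V_i, O)`; if `h^1(V_i, O) = 2` then `V_i` is a conic bundle over its Albanese
  surface, `D` is an etale double cover of it, but the residues of the holomorphic 3-form with a
  simple pole on `D` at the two points of a conic are opposite. -/
  comp : g.Mo → Bool → Comp PD Null hD
  /-- the normal bundles of `D` in `V_0` and `V_1` are dual to each other -/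
  normal : ∀ mu, (comp mu true).r (comp mu true).D = -(comp mu false).r (comp mu false).D
  /-- the restriction to `V_i` of a Cartier class -/
  res : ∀ mu i, g.Lam → (comp mu i).C
  res_nsmul : ∀ mu i x (n : ℕ), g.Car mu x → res mu i (n • x) = n • res mu i x
  res_D : ∀ mu x, g.Car mu x →
    (comp mu false).r (res mu false x) = (comp mu true).r (res mu true x)
  /-- `H^1(V_0, O) ∩ H^1(V_1, O) = 0` in `H^1(D, O)` because `H^1(X_b, O) = 0` -/
  direct : ∀ mu p p', (comp mu false).Pic0 p → (comp mu true).Pic0 p' →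
    Tor ((comp mu false).r p - (comp mu true).r p') → Tor p ∧ Tor p'
  /-- Mayer-Vietoris sequence -/
  mayer : ∀ mu x, g.Car mu x → (∀ i q, (comp mu i).h (res mu i x) q = 0) →
    (∀ q, hD ((comp mu false).r (res mu false x)) q = 0) → g.Acyclic mu x
  /-- if a multiple of `x` is on `V_i` a multiple of `D`, and `D` moves in a pencil without base
  points on `V_i`, for both `i`, then the sections of multiples of `x` on `V_0`, `V_1` which are
  constant on `D` can be glued, so `x` is semiample -/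
  chain : ∀ mu x, g.Nef mu x → g.Car mu x →
    (∀ i, ∃ n a j : ℕ, 0 < n ∧ 0 < a ∧ n • res mu i x = a • (comp mu i).D ∧
      (comp mu i).Sec ((j + 1) • (comp mu i).D)) → g.SA mu x ∧ Dom mu x
  /-- the classes of the components of `X_b`, which is a principal divisor -/
  V : Bool → g.Lam
  V_add : V false + V true = 0
  rho_V : ∀ i, g.rho (V i) = 0
  nef_add : ∀ mu x y, g.Nef mu x → g.Nef mu y → g.Nef mu (x + y)
  one_nsmul : ∀ L (k : ℕ), 0 < k → One L → One (k • L)
  /-- the intersection numbers `x.y.A.V_i`, `A` ample on the model -/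
  q : g.Mo → Bool → g.Lam → g.Lam → ℚ
  q_add : ∀ mu i x y z, q mu i (x + y) z = q mu i x z + q mu i y z
  q_symm : ∀ mu i x y, q mu i x y = q mu i y x
  q_nonneg : ∀ mu i x, g.Nef mu x → 0 ≤ q mu i x x
  /-- the sum is the intersection number on the generic fibre -/
  q_sum : ∀ mu x, One (g.rho x) → q mu false x x + q mu true x x = 0
  /-- the intersection numbers `x.A.A.V_i` -/
  d : g.Mo → Bool → g.Lam → ℚ
  d_add : ∀ mu i x y, d mu i (x + y) = d mu i x + d mu i y
  d_nonneg : ∀ mu i x, g.Nef mu x → 0 ≤ d mu i x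
  d_neg : ∀ mu i, d mu i (V i) < 0
  /-- Hodge index theorem on a general surface in the class `A` on `V_i`: a multiple of the nef class
  `y` is numerically equivalent on `V_i` to a multiple of `D`, nonzero if `y.A.A.V_i ≠ 0`, and then
  `D` is numerically trivial on itself -/
  hodge : ∀ mu i y, g.Nef mu y → q mu i y y = 0 → q mu i y (V i) = 0 → q mu i (V i) (V i) = 0 →
    d mu i y ≠ 0 → Null ((comp mu i).r (comp mu i).D) ∧ ∃ (n a : ℕ) (p : (comp mu i).C),
      0 < n ∧ 0 < a ∧ (comp mu i).Pic0 p ∧ (∀ j : ℕ, g.Car mu (j • n • y)) ∧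
        res mu i (n • y) = a • (comp mu i).D + p

attribute [instance] AbelGerm.grpD

namespace AbelGerm

variable {P : Type} [AddCommGroup P] {g : Germ P} {One : P → Prop}
  {Dom : g.Mo → g.Lam → Prop} (T : AbelGerm g One Dom)

lemma q_add' (mu : g.Mo) (i : Bool) (x y z : g.Lam) :
    T.q mu i z (x + y) = T.q mu i z x + T.q mu i z y := by
  rw [T.q_symm, T.q_add, T.q_symm mu i x, T.q_symm mu i y]

lemma V_not (i : Bool) : T.V (!i) = -T.V i := by
  have h := T.V_add
  cases i
  · exact (neg_eq_of_add_eq_zero_right h).symm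
  · exact (neg_eq_of_add_eq_zero_left h).symm

include T in
lemma nef_nsmul (mu : g.Mo) (x : g.Lam) (hx : g.Nef mu x) (n : ℕ) : g.Nef mu ((n + 1) • x) := by
  induction n with
  | zero => simpa using hx
  | succ n ih => rw [add_smul _ 1, one_smul]; exact T.nef_add _ _ _ ih hx

/-- The alternative for a class which is `A_i D + P_i` on `V_i`, `A_i > 0` and `P_i` in `Pic^0(V_i)`,
for both `i`. -/
theorem pair {PD : Type} [AddCommGroup PD] {Null : PD → Prop} {hD : PD → ℕ → ℕ}
    (X0 X1 : Comp PD Null hD) (hna : ∀ w, Null w → w ≠ 0 → ∀ q, hD w q = 0)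
    (hadd : ∀ w w', Null w → Null w' → Null (w + w')) (hneg : ∀ w, Null w → Null (-w))
    (hnm : X1.r X1.D = -X0.r X0.D) (hnull0 : Null (X0.r X0.D)) (hnull1 : Null (X1.r X1.D))
    (hdir : ∀ p p', X0.Pic0 p → X1.Pic0 p' → Tor (X0.r p - X1.r p') → Tor p ∧ Tor p')
    (A0 A1 : ℕ) (hA0 : 0 < A0) (hA1 : 0 < A1) (P0 : X0.C) (P1 : X1.C) (hP0 : X0.Pic0 P0)
    (hP1 : X1.Pic0 P1) (hrel : X0.r (A0 • X0.D + P0) = X1.r (A1 • X1.D + P1)) :
    (Tor P0 ∧ Tor P1 ∧ (∃ j : ℕ, X0.Sec ((j + 1) • X0.D)) ∧ ∃ j : ℕ, X1.Sec ((j + 1) • X1.D)) ∨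
      ∀ j : ℕ, 0 < j → (∀ q, X0.h (j • (A0 • X0.D + P0)) q = 0) ∧
        (∀ q, X1.h (j • (A1 • X1.D + P1)) q = 0) ∧
        ∀ q, hD (X0.r (j • (A0 • X0.D + P0))) q = 0 := by
  rw [X0.r_add, X1.r_add, X0.r_nsmul, X1.r_nsmul, hnm] at hrel
  -- `(A0 + A1) v = P1 - P0` on `D`
  have hrel' : (A0 + A1) • X0.r X0.D = X1.r P1 - X0.r P0 := by
    rw [add_smul, eq_sub_iff_add_eq]
    calc A0 • X0.r X0.D + A1 • X0.r X0.D + X0.r P0
        = (A0 • X0.r X0.D + X0.r P0) + A1 • X0.r X0.D := by abel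
      _ = (A1 • -X0.r X0.D + X1.r P1) + A1 • X0.r X0.D := by rw [hrel]
      _ = X1.r P1 := by rw [smul_neg]; abel
  by_cases hv : Tor (X0.r X0.D)
  · -- the normal bundle is torsion
    left
    have hv1 : Tor (X1.r X1.D) := by rw [hnm]; exact hv.neg
    have hT : Tor (X0.r P0 - X1.r P1) := by
      have h1 : X0.r P0 - X1.r P1 = -((A0 + A1) • X0.r X0.D) := by rw [hrel']; abel
      rw [h1]
      exact (hv.nsmul _).neg
    obtain ⟨h0, h1⟩ := hdir P0 P1 hP0 hP1 hT
    exact ⟨h0, h1, X0.exists_sec hna hadd hnull0 hv, X1.exists_sec hna hadd hnull1 hv1⟩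
  · -- the normal bundle is not torsion
    right
    have hT0 : ¬ Tor P0 := by
      rintro ⟨l, hl, h0⟩
      have e : (l * (A0 + A1)) • X1.r X1.D = X1.r (-(l • P1)) := by
        rw [hnm, smul_neg, X1.r_neg, X1.r_nsmul, mul_smul, hrel', smul_sub, ← X0.r_nsmul, h0,
          X0.r_zero, sub_zero]
      have h1 := X1.tor_of_eq hna hadd hneg hnull1 (l * (A0 + A1))
        (Nat.mul_pos hl (by omega)) _ (X1.pic0_neg _ (X1.pic0_nsmul _ hl _ hP1)) e
      have h2 : Tor P1 := Tor.of_nsmul hl (by simpa using h1.neg)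
      apply hv
      refine Tor.of_nsmul (n := A0 + A1) (by omega) ?_
      rw [hrel']
      obtain ⟨m, hm, hm0⟩ := h2
      have h3 : Tor (X1.r P1) := ⟨m, hm, by rw [← X1.r_nsmul, hm0, X1.r_zero]⟩
      have h4 : Tor (X0.r P0) := ⟨l, hl, by rw [← X0.r_nsmul, h0, X0.r_zero]⟩
      exact h3.sub h4
    have hT1 : ¬ Tor P1 := by
      rintro ⟨l, hl, h0⟩
      have e : (l * (A0 + A1)) • X0.r X0.D = X0.r (-(l • P0)) := by
        rw [X0.r_neg, X0.r_nsmul, mul_smul, hrel', smul_sub, ← X1.r_nsmul, h0,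
          X1.r_zero, zero_sub]
      have h1 := X0.tor_of_eq hna hadd hneg hnull0 (l * (A0 + A1))
        (Nat.mul_pos hl (by omega)) _ (X0.pic0_neg _ (X0.pic0_nsmul _ hl _ hP0)) e
      exact hT0 (Tor.of_nsmul hl (by simpa using h1.neg))
    intro j hj
    have hne : X0.r (j • (A0 • X0.D + P0)) ≠ 0 := by
      intro h0
      rw [smul_add, ← mul_smul, X0.r_add, X0.r_nsmul] at h0
      have h1 : (j * A0) • X0.r X0.D = X0.r (-(j • P0)) := by
        rw [X0.r_neg]
        exact eq_neg_of_add_eq_zero_left h0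
      have h2 := X0.tor_of_eq hna hadd hneg hnull0 (j * A0) (Nat.mul_pos hj hA0) _
        (X0.pic0_neg _ (X0.pic0_nsmul _ hj _ hP0)) h1
      exact hT0 (Tor.of_nsmul hj (by simpa using h2.neg))
    refine ⟨?_, ?_, ?_⟩
    · rw [smul_add, ← mul_smul]
      exact X0.acyclic hna hadd hneg hnull0 _ (X0.pic0_nsmul _ hj _ hP0)
        (fun h => hT0 (Tor.of_nsmul hj h)) _
    · rw [smul_add, ← mul_smul]
      exact X1.acyclic hna hadd hneg hnull1 _ (X1.pic0_nsmul _ hj _ hP1)
        (fun h => hT1 (Tor.of_nsmul hj h)) _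
    · refine hna _ ?_ hne
      rw [smul_add, ← mul_smul, X0.r_add, X0.r_nsmul]
      refine hadd _ _ ?_ (X0.pic0_null _ (X0.pic0_nsmul _ hj _ hP0))
      have hpos : ∀ n : ℕ, Null ((n + 1) • X0.r X0.D) := by
        intro n
        induction n with
        | zero => simpa using hnull0
        | succ n ih => rw [add_smul _ 1, one_smul]; exact hadd _ _ ih hnull0
      obtain ⟨n, hn'⟩ : ∃ n, j * A0 = n + 1 := ⟨j * A0 - 1, by
        have := Nat.mul_pos hj hA0
        omega⟩
      rw [hn']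
      exact hpos n

/-- The result for a class `y` in the interior. -/
theorem aux (mu : g.Mo) (y : g.Lam) (hn : ∀ i, T.d mu i y ≠ 0) (hy : g.Nef mu y)
    (hyy : ∀ i, T.q mu i y y = 0) (hyV : ∀ i, T.q mu i y (T.V i) = 0)
    (hVV : ∀ i, T.q mu i (T.V i) (T.V i) = 0) :
    ∃ k : ℕ, 0 < k ∧ ((∀ j : ℕ, 0 < j → g.Car mu (j • k • y) ∧ g.Acyclic mu (j • k • y)) ∨
      (g.Nef mu (k • y) ∧ g.SA mu (k • y) ∧ Dom mu (k • y))) := by
  obtain ⟨hnull0, n0, a0, p0, hn0, ha0, hp0, hc0, hr0⟩ :=
    T.hodge mu false y hy (hyy _) (hyV _) (hVV _) (hn _)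
  obtain ⟨hnull1, n1, a1, p1, hn1, ha1, hp1, hc1, hr1⟩ :=
    T.hodge mu true y hy (hyy _) (hyV _) (hVV _) (hn _)
  -- the common multiple `Y`
  have hk : 0 < n0 * n1 := Nat.mul_pos hn0 hn1
  have hC : ∀ j : ℕ, g.Car mu (j • (n0 * n1) • y) := by
    intro j
    have h := hc0 (j * n1)
    rwa [mul_smul, smul_comm n1, ← mul_smul n0] at h
  have hC1 : g.Car mu ((n0 * n1) • y) := by simpa using hC 1
  have hCn0 : g.Car mu (n0 • y) := by simpa using hc0 1
  have hCn1 : g.Car mu (n1 • y) := by simpa using hc1 1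
  have hR0 : T.res mu false ((n0 * n1) • y) =
      (n1 * a0) • (T.comp mu false).D + n1 • p0 := by
    rw [mul_comm, mul_smul, T.res_nsmul mu false _ _ hCn0, hr0, smul_add, mul_smul]
  have hR1 : T.res mu true ((n0 * n1) • y) = (n0 * a1) • (T.comp mu true).D + n0 • p1 := by
    rw [mul_smul, T.res_nsmul mu true _ _ hCn1, hr1, smul_add, mul_smul]
  have hP0 := (T.comp mu false).pic0_nsmul _ hn1 _ hp0
  have hP1 := (T.comp mu true).pic0_nsmul _ hn0 _ hp1
  have hA0 : 0 < n1 * a0 := Nat.mul_pos hn1 ha0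
  have hA1 : 0 < n0 * a1 := Nat.mul_pos hn0 ha1
  have hrel := T.res_D mu _ hC1
  rw [hR0, hR1] at hrel
  refine ⟨n0 * n1, hk, ?_⟩
  rcases pair (T.comp mu false) (T.comp mu true) T.null_acyclic T.null_add T.null_neg
    (T.normal mu) hnull0 hnull1 (T.direct mu) _ _ hA0 hA1 _ _ hP0 hP1 hrel with h | h
  · right
    obtain ⟨⟨l0, hl0, h0⟩, ⟨l1, hl1, h1⟩, ⟨j0, hj0⟩, ⟨j1, hj1⟩⟩ := h
    have hnef : g.Nef mu ((n0 * n1) • y) := by
      obtain ⟨k, hk'⟩ : ∃ k, n0 * n1 = k + 1 := ⟨n0 * n1 - 1, by omega⟩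
      rw [hk']
      exact T.nef_nsmul mu y hy k
    refine ⟨hnef, T.chain mu _ hnef hC1 ?_⟩
    intro i
    cases i
    · refine ⟨l0, l0 * (n1 * a0), j0, hl0, Nat.mul_pos hl0 hA0, ?_, hj0⟩
      rw [hR0, smul_add, h0, add_zero, mul_smul l0]
    · refine ⟨l1, l1 * (n0 * a1), j1, hl1, Nat.mul_pos hl1 hA1, ?_, hj1⟩
      rw [hR1, smul_add, h1, add_zero, mul_smul l1]
  · left
    intro j hj
    obtain ⟨h0, h1, h2⟩ := h j hj
    refine ⟨hC j, T.mayer mu _ (hC j) ?_ ?_⟩
    · intro i
      cases i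
      · rw [T.res_nsmul mu false _ _ hC1, hR0]; exact h0
      · rw [T.res_nsmul mu true _ _ hC1, hR1]; exact h1
    · rw [T.res_nsmul mu false _ _ hC1, hR0]; exact h2

/-- If `x` and `j x + V_i` are nef on the same model, `x` of numerical dimension one on the generic
fibre, then an extension of a multiple of `x` is acyclic on `X_b` with all its multiples, or nef and
semiample on `X_b`. -/
theorem inner (mu : g.Mo) (x : g.Lam) (hx : g.Nef mu x) (h1 : One (g.rho x)) (j : ℕ) (i0 : Bool)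
    (hj : g.Nef mu (j • x + T.V i0)) :
    ∃ (k : ℕ) (y : g.Lam), 0 < k ∧ g.rho y = k • g.rho x ∧
      ((∀ l : ℕ, 0 < l → g.Car mu (l • y) ∧ g.Acyclic mu (l • y)) ∨
        (g.Nef mu y ∧ g.SA mu y ∧ Dom mu y)) := by
  -- `w = (j + 1) x + V`, `y = (j + 1) x + w`
  obtain ⟨w, hw⟩ : ∃ w, w = (j + 1) • x + T.V i0 := ⟨_, rfl⟩
  have hwn : g.Nef mu w := by
    have e : w = x + (j • x + T.V i0) := by rw [hw, add_smul, one_smul]; abel
    rw [e]
    exact T.nef_add _ _ _ hx hj
  obtain ⟨y, hy⟩ : ∃ y, y = (j + 1) • x + w := ⟨_, rfl⟩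
  have hxj := T.nef_nsmul mu x hx j
  have hyn : g.Nef mu y := by rw [hy]; exact T.nef_add _ _ _ hxj hwn
  have hplus : g.Nef mu (y + y + T.V i0) := by
    have e : y + y + T.V i0 = (j + 1) • x + (w + w + w) := by
      rw [hy, hw]; abel
    rw [e]
    exact T.nef_add _ _ _ hxj (T.nef_add _ _ _ (T.nef_add _ _ _ hwn hwn) hwn)
  have hminus : g.Nef mu (y + y + T.V (!i0)) := by
    have e : y + y + T.V (!i0) = (j + 1) • x + (j + 1) • x + (j + 1) • x + w := by
      rw [hy, hw, T.V_not]; abel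
    rw [e]
    exact T.nef_add _ _ _ (T.nef_add _ _ _ (T.nef_add _ _ _ hxj hxj) hxj) hwn
  have hboth : ∀ i, g.Nef mu (y + y + T.V i) := by
    intro i
    cases i <;> cases i0 <;> assumption
  -- restrictions to the generic fibre
  have hrV : ∀ i, g.rho (T.V i) = 0 := T.rho_V
  have hrw : g.rho w = (j + 1) • g.rho x := by
    rw [hw, map_add, map_nsmul, hrV, add_zero]
  have hry : g.rho y = (2 * (j + 1)) • g.rho x := by
    rw [hy, map_add, map_nsmul, hrw, ← add_smul]
    congr 1
    omega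
  have hone : One (g.rho y) := by
    rw [hry]
    exact T.one_nsmul _ _ (by omega) h1
  have hone2 : ∀ i, One (g.rho (y + y + T.V i)) := by
    intro i
    have : g.rho (y + y + T.V i) = (2 * (2 * (j + 1))) • g.rho x := by
      rw [map_add, map_add, hrV, add_zero, hry, ← add_smul]
      congr 1
      omega
    rw [this]
    exact T.one_nsmul _ _ (by omega) h1
  -- squares are zero
  have hsq : ∀ z, g.Nef mu z → One (g.rho z) → ∀ i, T.q mu i z z = 0 := by
    intro z hz hz1 i
    have h := T.q_sum mu z hz1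
    have ha := T.q_nonneg mu false z hz
    have hb := T.q_nonneg mu true z hz
    cases i <;> linarith
  have hyy := hsq y hyn hone
  have hexp : ∀ i e, T.q mu i (y + y + T.V e) (y + y + T.V e) =
      4 * T.q mu i y y + 4 * T.q mu i y (T.V e) + T.q mu i (T.V e) (T.V e) := by
    intro i e
    simp only [T.q_add, T.q_add']
    rw [T.q_symm mu i (T.V e) y]
    ring
  have hqz : ∀ i z, T.q mu i z (-T.V i0) = -T.q mu i z (T.V i0) := by
    intro i z
    have h1 := T.q_add' mu i (T.V i0) (-T.V i0) z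
    have h2 := T.q_add' mu i 0 0 z
    rw [add_neg_cancel] at h1
    rw [add_zero] at h2
    linarith
  have hqz' : ∀ i z, T.q mu i (-T.V i0) z = -T.q mu i (T.V i0) z := by
    intro i z
    rw [T.q_symm, hqz, T.q_symm]
  have hyV0 : ∀ i, T.q mu i y (T.V i0) = 0 ∧ T.q mu i (T.V i0) (T.V i0) = 0 := by
    intro i
    have e1 := hexp i i0
    have e2 := hexp i (!i0)
    rw [hsq _ hplus (hone2 _) i, hyy i] at e1
    rw [hsq _ hminus (hone2 _) i, hyy i, T.V_not, hqz, hqz, hqz'] at e2
    constructor <;> linarith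
  have hyV : ∀ i, T.q mu i y (T.V i) = 0 ∧ T.q mu i (T.V i) (T.V i) = 0 := by
    intro i
    by_cases h : i = i0
    · rw [h]; exact hyV0 i0
    · have e : T.V i = -T.V i0 := by
        have hi : i = !i0 := Bool.eq_not_of_ne h
        rw [hi, T.V_not]
      rw [e, hqz, hqz, hqz', (hyV0 i).1, (hyV0 i).2]
      simp
  -- the degrees are positive
  have hd : ∀ i, T.d mu i y ≠ 0 := by
    intro i h0
    have h := T.d_nonneg mu i _ (hboth i)
    rw [T.d_add, T.d_add, h0] at h
    have := T.d_neg mu i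
    linarith
  obtain ⟨k, hk, h⟩ := T.aux mu y hd hyn hyy (fun i => (hyV i).1) (fun i => (hyV i).2)
  refine ⟨k * (2 * (j + 1)), k • y, by positivity, ?_, h⟩
  rw [map_nsmul, hry, smul_smul]

end AbelGerm

end Pool.Agent.H33.MN
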