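import Pool.Agent.H33.MN.Iface

/-!
# MP_5ee2d0_ag, Theorems M and N: sections of semiample classes lift from the special fibre

Let `XX -> Delta` be a `K`-trivial model over the local ring of a prime divisor `b` of the base of the
family, with special fibre `X_b` and geometric generic fibre `G`, a Calabi-Yau threefold with
`H^1(O) = 0`. Let `x` be nef on the model, semiample on `X_b`, `x^3 = 0` and `c_2.x = 0` on `G`, and
let `R` be a general member of `|kx|` on `X_b`, `k` large and divisible. The curves of singular points
of `XX` and of `X_b` outside of the double surfaces have degree zero with respect to `x`, so `R` does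
not meet them: along `R` the model is smooth over `Delta`, or `x y = t^m` along the double surface, and
`X_b` and `R` are smooth or normal crossing there. `T` is the nearby fibre of `R`, a compact oriented
`4`-manifold in `X_t`.

The new argument: the members of a general pencil in `|kx|` have no invariant classes in
`H^1(T, ℂ)`, because `H^1(X_b, ℂ) = 0`; hence the class of the holomorphic three-form `Omega_t` of `X_t`
restricted to `T`, an invariant element of `H^3(T, ℂ)`, is zero for all `t`; its Taylor coefficients
are the obstructions to lifting the equation of `R`, so it lifts to all orders.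

All maps between the cohomology groups are linear; only what is used is recorded.
-/

namespace Pool.Agent.H33.MN

/-- The local systems of a general pencil of members `R` of `|kx|`. If `R` is not connected, `R` and
`T` stand for one connected component. -/
structure LocalSystem where
  /-- Loops in the space of the smooth, or normal crossing, members of the pencil and of the nearby
  pencils of manifolds `T`. (If `D` is an abelian surface which is mapped to the common point of two
  curves, the images of the components `V_0`, `V_1`, then `x^2 = 0`, the manifolds `T` form a bundle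
  also over the neck, on both sides of which they are the cyclic covering of `D` of order `m` given by
  its normal bundle, and the loops are in both curves.) -/
  Loop : Type
  /-- `H^1(X_b, ℂ)` -/
  HX : Type
  /-- `H^1(R, ℂ)` -/
  HR : Type
  /-- `H^1(T, ℂ)` -/
  HT : Type
  /-- `H^3(T, ℂ)` -/
  HT3 : Type
  [zeroX : Zero HX]
  [zeroR : Zero HR]
  [zeroT : Zero HT]
  [zeroT3 : Zero HT3]
  /-- the monodromy actions -/
  actR : Loop → HR → HR
  actT : Loop → HT → HT
  act3 : Loop → HT3 → HT3
  /-- `h^1(X_b, O)` -/
  irr : ℕ
  /-- `H^1(X_b, ℂ)` has weights `0` and `1`, and `H^1(X_b, ℂ) -> H^1(X_b, O)` is onto with kernel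
  conjugate to a part of `H^1(X_b, O)` (Du Bois; Kollár, Kovács: slc varieties are Du Bois) -/
  du_bois : irr = 0 → ∀ x : HX, x = 0
  /-- restriction -/
  res : HX → HR
  res_zero : res 0 = 0
  /-- Theorem of the fixed part: an invariant class on `R` is the restriction of a class on the part
  of `X_b` which is swept out by the members over the base of the pencil, an affine curve (Leray),
  and by strictness of one of weight at most one, which is the restriction of a class on the blow up
  of `X_b` in the base curve of the pencil (Deligne, Hodge II and III; Mayer-Vietoris for the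
  components of `X_b`, which have rational singularities), so of a class on `X_b`. (With a neck the
  class is in `H^1(V_0) ∩ H^1(V_1) = H^1(X_b)` in `H^1(D)`. If the double surfaces are K3 surfaces
  then the components have no first cohomology.) -/
  fixed_part : ∀ a : HR, (∀ s, actR s a = a) → ∃ x : HX, res x = a
  /-- specialisation -/
  sp : HR → HT
  sp_zero : sp 0 = 0
  sp_act : ∀ s a, sp (actR s a) = actT s (sp a)
  sp_injective : ∀ a a', sp a = sp a' → a = a'
  /-- the logarithm of the monodromy of `T` around `b` (zero if `X_b` is smooth along `R`) -/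
  mon : HT → HT
  mon_act : ∀ s a, mon (actT s a) = actT s (mon a)
  mon_mon : ∀ a, mon (mon a) = 0
  /-- local invariant cycle theorem (Clemens, Schmid, Steenbrink, Deligne) -/
  ker_mon : ∀ a : HT, mon a = 0 → ∃ z : HR, sp z = a
  /-- the inverse of the isomorphism `H^1(T, ℂ) -> H^3(T, ℂ)` given by the restriction of a
  polarisation: hard Lefschetz for the (log smooth) projective surface `R` (Steenbrink, Guillén,
  Navarro Aznar, Saito) -/
  lef : HT3 → HT
  lef_act : ∀ s a, lef (act3 s a) = actT s (lef a)
  lef_eq_zero : ∀ a, lef a = 0 → a = 0

attribute [instance] LocalSystem.zeroX LocalSystem.zeroR LocalSystem.zeroT LocalSystem.zeroT3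

namespace LocalSystem

variable (S : LocalSystem)

/-- `H^1(R, ℂ)` has no invariants if `h^1(X_b, O) = 0` -/
theorem inv_R (h : S.irr = 0) (a : S.HR) (ha : ∀ s, S.actR s a = a) : a = 0 := by
  obtain ⟨x, hx⟩ := S.fixed_part a ha
  rw [← hx, S.du_bois h x, S.res_zero]

/-- `H^1(T, ℂ)` has no invariants if `h^1(X_b, O) = 0` -/
theorem inv_T (h : S.irr = 0) (a : S.HT) (ha : ∀ s, S.actT s a = a) : a = 0 := by
  -- an invariant class in the kernel of `mon` is zero
  have key : ∀ b : S.HT, (∀ s, S.actT s b = b) → S.mon b = 0 → b = 0 := by
    intro b hb hmb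
    obtain ⟨z, hz⟩ := S.ker_mon b hmb
    have hzi : ∀ s, S.actR s z = z := by
      intro s
      apply S.sp_injective
      rw [S.sp_act, hz, hb]
    rw [← hz, S.inv_R h z hzi, S.sp_zero]
  have h1 : S.mon a = 0 := by
    apply key _ _ (S.mon_mon a)
    intro s
    rw [← S.mon_act, ha]
  exact key a ha h1

/-- `H^3(T, ℂ)` has no invariants if `h^1(X_b, O) = 0` -/
theorem inv_T3 (h : S.irr = 0) (a : S.HT3) (ha : ∀ s, S.act3 s a = a) : a = 0 := by
  apply S.lef_eq_zero
  apply S.inv_T h
  intro s
  rw [← S.lef_act, ha]

end LocalSystem

/-- The general member `R` of `|kx|` and the liftings of its equation `s`; `E` says that `kx` is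
effective on `G`. -/
structure Member (E : Prop) where
  /-- the connected components of `R` -/
  Pt : Type
  S : Pt → LocalSystem
  /-- `h^1(X_b, O) = h^1(G, O) = 0` (Kollár: `X_b` is Du Bois) -/
  irr : ∀ p, (S p).irr = 0
  /-- small parameters `t` different from `0`, in a sector -/
  Par : Type
  /-- the class in `H^3(T, ℂ)` of the holomorphic three-form `Omega_t` of `X_t`, restricted to `T` -/
  om : ∀ p, Par → (S p).HT3
  /-- it is the restriction of a class on `X_t`, and the manifolds `T` of the pencil form a bundle
  (Ehresmann; Clemens) -/
  om_act : ∀ p t s, (S p).act3 s (om p t) = om p t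
  /-- Taylor coefficients at `t = 0` of `om`, in the canonical extension (the logarithmic de Rham
  cohomology) -/
  coef : ∀ p, ℕ → (S p).HT3
  coef_zero : ∀ p, (∀ t, om p t = 0) → ∀ n, coef p n = 0
  /-- liftings of the section `s` of `O(kx)` to `XX` modulo `t^(n+1)` -/
  Lift : ℕ → Type
  trunc : ∀ n, Lift (n + 1) → Lift n
  /-- `s` itself -/
  s : Lift 0
  /-- `H^1(X_b, O(kx))` -/
  Ob : Type
  [zeroO : Zero Ob]
  /-- the obstruction to lifting one step further -/
  ob : ∀ n, Lift n → Ob
  lift : ∀ n x, ob n x = 0 → ∃ y : Lift (n + 1), trunc n y = x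
  /-- the restriction to the component `p` of `R`, and `O(kx) = ω_R` on `R` because `K = 0` on
  `X_b`; `H^1(R, ω_R) = H^1(R, Ω^2(log))` is a subspace of `H^3(T, ℂ)` -/
  val : ∀ p, Ob → (S p).HT3
  /-- `H^1(X_b, O(kx)) → H^1(R, O(kx))` is injective because `h^1(X_b, O) = 0`, and the Hodge spectral
  sequence of `R` degenerates (Hodge, Deligne, Steenbrink) -/
  val_injective : ∀ o, (∀ p, val p o = 0) → o = 0
  /-- If `s` is lifted to order `n`, the Taylor coefficient of `t^(n+1)` is the obstruction, up to sign
  (Bloch, Ran, Voisin: semiregularity). Proof: let `s_i` be local liftings to order `n + 1`,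
  `s_i - s_j = t^(n+1) o_ij`, and `φ_i` smooth sections of `O(kx)` on `X_b` with `φ_i - φ_j = - o_ij`.
  Then `T` is the zero set of the smooth section `s_i + t^(n+1) φ_i`, so on `T` the derivative
  `∂s` is `-t^(n+1) θ`, `θ` a Dolbeault representative of the obstruction. Write
  `Omega = ∂s ∧ η`, where `η` defines the isomorphism of `O(kx)` with `ω_R` on `R`: the restriction of
  `Omega` to `T` is `-t^(n+1) θ ∧ η`; with logarithmic forms if `R` is normal crossing. -/
  taylor : ∀ n x p, coef p (n + 1) = val p (ob n x)
  /-- theorem on formal functions: if `s` lifts to all orders then `kx` is effective on `G` -/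
  formal : (∃ x : ∀ n, Lift n, x 0 = s ∧ ∀ n, trunc n (x (n + 1)) = x n) → E

attribute [instance] Member.zeroO

/-- `kx` is effective on `G` -/
theorem Member.effective {E : Prop} (F : Member E) : E := by
  have hob : ∀ n x, F.ob n x = 0 := by
    intro n x
    apply F.val_injective
    intro p
    rw [← F.taylor n x p]
    exact F.coef_zero p (fun t => (F.S p).inv_T3 (F.irr p) _ (F.om_act p t)) _
  choose nxt hnxt using fun n (x : F.Lift n) => F.lift n x (hob n x)
  exact F.formal ⟨fun n => Nat.rec F.s (fun k y => nxt k y) n, rfl, fun n => hnxt n _⟩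

/-- The comparison of the special fibre `X_b` with the geometric generic fibre `G`. `Low L` says that
`L^3 = 0` and `L` is not numerically trivial, `c` is the degree of the second Chern class, and
`Dom mu x` is no condition unless the double surfaces of `X_b` are abelian; then it says that they are
not mapped to points by the contraction of `X_b` given by `x`, or that `L^2 = 0` and the image of
`X_b = V_0 ∪ V_1` is the union of two curves, the images of `V_0` and `V_1`. -/
structure MemberGerm {P : Type} [AddCommGroup P] (g : Germ P) (c : P → ℚ) (Low : P → Prop)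
    (Dom : g.Mo → g.Lam → Prop) (hG : ℕ → P → ℕ) where
  member : ∀ (mu : g.Mo) (x : g.Lam), g.Nef mu x → g.SA mu x → c (g.rho x) = 0 → Low (g.rho x) →
    Dom mu x → ∃ k : ℕ, 0 < k ∧ Nonempty (Member (0 < hG 0 (k • g.rho x)))

/-- If a multiple of `L` extends to a class of a model over `b` which is nef and semiample on the
special fibre, then a positive multiple of `L` is effective. -/
theorem MemberGerm.effective {P : Type} [AddCommGroup P] {g : Germ P} {c : P → ℚ} {Low : P → Prop}
    {Dom : g.Mo → g.Lam → Prop} {hG : ℕ → P → ℕ} (C : MemberGerm g c Low Dom hG) (L : P) (n : ℕ)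
    (hn : 0 < n) (hc : c (n • L) = 0) (h1 : Low (n • L)) (mu : g.Mo) (x : g.Lam)
    (hx : g.rho x = n • L) (hnef : g.Nef mu x) (hsa : g.SA mu x) (hdom : Dom mu x) :
    ∃ k : ℕ, 0 < k ∧ 0 < hG 0 (k • L) := by
  obtain ⟨k, hk, ⟨F⟩⟩ := C.member mu x hnef hsa (by rw [hx]; exact hc) (by rw [hx]; exact h1) hdom
  refine ⟨k * n, Nat.mul_pos hk hn, ?_⟩
  have h := F.effective
  rwa [hx, smul_smul] at h

end Pool.Agent.H33.MN
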