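import Pool.Agent.H33.MN.OneDefs

/-!
# MP_5ee2d0_ag, Theorem N: special fibres with two components, classes of numerical dimension one

Proof of the alternative: some extension of a multiple of `L` is acyclic on `X_b` with all its positive
multiples, or a multiple of `L` is semiample on the special fibre of a suitable model.
-/

namespace Pool.Agent.H33.MN

section Tor

variable {C : Type} [AddCommGroup C]

lemma Tor.neg {z : C} (h : Tor z) : Tor (-z) := by
  obtain ⟨k, hk, h⟩ := h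
  exact ⟨k, hk, by rw [smul_neg, h, neg_zero]⟩

lemma Tor.add {z y : C} (h : Tor z) (h' : Tor y) : Tor (z + y) := by
  obtain ⟨k, hk, h⟩ := h
  obtain ⟨l, hl, h'⟩ := h'
  refine ⟨k * l, Nat.mul_pos hk hl, ?_⟩
  rw [smul_add, mul_comm, mul_smul, h, smul_zero, zero_add, mul_comm, mul_smul, h', smul_zero]

lemma Tor.sub {z y : C} (h : Tor z) (h' : Tor y) : Tor (z - y) := by
  rw [sub_eq_add_neg]
  exact h.add h'.neg

lemma Tor.nsmul {z : C} (h : Tor z) (n : ℕ) : Tor (n • z) := by
  obtain ⟨k, hk, h⟩ := h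
  exact ⟨k, hk, by rw [smul_comm, h, smul_zero]⟩

lemma Tor.of_nsmul {z : C} {n : ℕ} (hn : 0 < n) (h : Tor (n • z)) : Tor z := by
  obtain ⟨k, hk, h⟩ := h
  exact ⟨k * n, Nat.mul_pos hk hn, by rw [mul_smul, h]⟩

end Tor

namespace Surf

variable (S : Surf)

lemma null_add' (w w' : S.P) (h : S.Null w) (h' : S.Null w') : S.Null (w + w') :=
  S.null_add w w' h h'

lemma null_neg' (w : S.P) (h : S.Null w) : S.Null (-w) := S.null_neg w h

lemma null_acyclic' (hA : S.Ab) (w : S.P) (h : S.Null w) (h0 : w ≠ 0) (q : ℕ) : S.h w q = 0 :=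
  S.null_acyclic hA w h h0 q

lemma null_succ {v : S.P} (hv : S.Null v) (n : ℕ) : S.Null ((n + 1) • v) := by
  induction n with
  | zero => simpa using hv
  | succ n ih => rw [add_smul _ 1, one_smul]; exact S.null_add' _ _ ih hv

end Surf

namespace Comp

variable {S : Surf} (X : Comp S)

lemma r_add' (z y : X.C) : X.r (z + y) = X.r z + X.r y := X.r_add z y

lemma pic0_add' (z y : X.C) (h : X.Pic0 z) (h' : X.Pic0 y) : X.Pic0 (z + y) := X.pic0_add z y h h'

lemma pic0_neg' (z : X.C) (h : X.Pic0 z) : X.Pic0 (-z) := X.pic0_neg z h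

lemma seq' (z : X.C) (h : ∀ q, S.h (X.r z) q = 0) (h' : ∀ q, X.h (z - X.D) q = 0) (q : ℕ) :
    X.h z q = 0 := X.seq z h h' q

lemma sec' (z : X.C) (h : X.r z = 0) (h' : X.h (z - X.D) 1 = 0) : X.Sec z := X.sec z h h'

lemma abundance' (k : ℕ) (z : X.C) (hk : 0 < k) (hz : X.Pic0 z) (h : X.Sec (k • X.D - z)) :
    Tor z := X.abundance k z hk hz h

lemma r_zero : X.r 0 = 0 := by
  have := X.r_add' 0 0
  rw [add_zero] at this
  exact left_eq_add.1 this

lemma r_nsmul (n : ℕ) (z : X.C) : X.r (n • z) = n • X.r z := by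
  induction n with
  | zero => rw [zero_smul, zero_smul, X.r_zero]
  | succ n ih => rw [add_smul, one_smul, X.r_add', ih, add_smul, one_smul]

lemma r_neg (z : X.C) : X.r (-z) = -X.r z := by
  have := X.r_add' z (-z)
  rw [add_neg_cancel, X.r_zero] at this
  exact (neg_eq_of_add_eq_zero_right this.symm).symm

lemma r_sub (z y : X.C) : X.r (z - y) = X.r z - X.r y := by
  rw [sub_eq_add_neg, X.r_add', X.r_neg, sub_eq_add_neg]

lemma pic0_nsmul (n : ℕ) (hn : 0 < n) (z : X.C) (hz : X.Pic0 z) : X.Pic0 (n • z) := by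
  induction n, hn using Nat.le_induction with
  | base => simpa using hz
  | succ n hn ih => rw [add_smul, one_smul]; exact X.pic0_add' _ _ ih hz

/-- If a positive multiple of the normal bundle of `D` is the restriction of a class of `Pic^0(V)` then
this class is torsion. -/
theorem tor_of_eq (hA : S.Ab) (hv : S.Null (X.r X.D)) (k : ℕ) (hk : 0 < k) (p : X.C)
    (hp : X.Pic0 p) (h : k • X.r X.D = X.r p) : Tor p := by
  classical
  -- the least such `k`
  have hex : ∃ k : ℕ, 0 < k ∧ ∃ p, X.Pic0 p ∧ k • X.r X.D = X.r p := ⟨k, hk, p, hp, h⟩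
  obtain ⟨hm, q, hq, hmq⟩ := Nat.find_spec hex
  have hmin := fun n (hn : n < Nat.find hex) => Nat.find_min hex hn
  generalize Nat.find hex = m at hm hmq hmin
  -- the class `q` for the least `k` is torsion
  have hT : Tor q := by
    by_contra hcon
    have hnq : ¬ Tor (-q) := fun h => hcon (by simpa using h.neg)
    -- `jD - q` is acyclic for `j < m`
    have hac : ∀ j : ℕ, j < m → ∀ i, X.h (j • X.D - q) i = 0 := by
      intro j
      induction j with
      | zero =>
        intro _ i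
        rw [zero_smul, zero_sub]
        exact X.simpson _ (X.pic0_neg' _ hq) hnq i
      | succ j ih =>
        intro hj i
        refine X.seq' _ ?_ ?_ i
        · have hne : X.r ((j + 1) • X.D - q) ≠ 0 := by
            intro h0
            refine hmin (j + 1) hj ⟨Nat.succ_pos j, q, hq, ?_⟩
            rw [X.r_sub, X.r_nsmul, sub_eq_zero] at h0
            exact h0
          refine S.null_acyclic' hA _ ?_ hne
          rw [X.r_sub, X.r_nsmul, sub_eq_add_neg]
          exact S.null_add' _ _ (S.null_succ hv j) (S.null_neg' _ (X.pic0_null _ hq))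
        · intro i
          have e : (j + 1) • X.D - q - X.D = j • X.D - q := by
            rw [add_smul, one_smul]; abel
          rw [e]
          exact ih (Nat.lt_of_succ_lt hj) i
    refine hcon (X.abundance' m q hm hq (X.sec' _ ?_ ?_))
    · rw [X.r_sub, X.r_nsmul, hmq, sub_self]
    · obtain ⟨j, rfl⟩ : ∃ j, m = j + 1 := ⟨m - 1, by omega⟩
      have e : (j + 1) • X.D - q - X.D = j • X.D - q := by
        rw [add_smul, one_smul]; abel
      rw [e]
      exact hac j (Nat.lt_succ_self j) 1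
  -- `v` is torsion
  have hv' : Tor (X.r X.D) := by
    obtain ⟨l, hl, hl0⟩ := hT
    refine ⟨l * m, Nat.mul_pos hl hm, ?_⟩
    rw [mul_smul, hmq, ← X.r_nsmul, hl0, X.r_zero]
  apply X.pic0_ker p hp
  rw [← h]
  exact hv'.nsmul k

/-- a class `aD + p` with `p` in `Pic^0(V)` not torsion is acyclic for `a ≥ 0` -/
theorem acyclic (hA : S.Ab) (hv : S.Null (X.r X.D)) (p : X.C) (hp : X.Pic0 p) (ht : ¬ Tor p)
    (a : ℕ) : ∀ q, X.h (a • X.D + p) q = 0 := by
  induction a with
  | zero =>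
    intro q
    rw [zero_smul, zero_add]
    exact X.simpson p hp ht q
  | succ a ih =>
    intro q
    refine X.seq' _ ?_ ?_ q
    · have hne : X.r ((a + 1) • X.D + p) ≠ 0 := by
        intro h0
        rw [X.r_add', X.r_nsmul] at h0
        have h1 : (a + 1) • X.r X.D = X.r (-p) := by
          rw [X.r_neg]
          exact eq_neg_of_add_eq_zero_left h0
        have h2 := X.tor_of_eq hA hv (a + 1) (Nat.succ_pos a) (-p) (X.pic0_neg' p hp) h1
        exact ht (by simpa using h2.neg)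
      refine S.null_acyclic' hA _ ?_ hne
      rw [X.r_add', X.r_nsmul]
      exact S.null_add' _ _ (S.null_succ hv a) (X.pic0_null _ hp)
    · intro i
      have e : (a + 1) • X.D + p - X.D = a • X.D + p := by
        rw [add_smul, one_smul]; abel
      rw [e]
      exact ih i

/-- The alternative for a class which is `A_i D + P_i` on `V_i`, `A_i > 0` and `P_i` in `Pic^0(V_i)`,
for both `i`. -/
theorem pair (X0 X1 : Comp S) (hnm : X1.r X1.D = -X0.r X0.D) (hnull0 : S.Null (X0.r X0.D))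
    (hnull1 : S.Null (X1.r X1.D))
    (hdir : ∀ p p', X0.Pic0 p → X1.Pic0 p' → Tor (X0.r p - X1.r p') → Tor p ∧ Tor p')
    (A0 A1 : ℕ) (hA0 : 0 < A0) (hA1 : 0 < A1) (P0 : X0.C) (P1 : X1.C) (hP0 : X0.Pic0 P0)
    (hP1 : X1.Pic0 P1) (hrel : X0.r (A0 • X0.D + P0) = X1.r (A1 • X1.D + P1)) :
    (Tor (X0.r X0.D) ∧ Tor P0 ∧ Tor P1) ∨
      ∀ j : ℕ, 0 < j → (∀ q, X0.h (j • (A0 • X0.D + P0)) q = 0) ∧
        (∀ q, X1.h (j • (A1 • X1.D + P1)) q = 0) ∧
        ∀ q, S.h (X0.r (j • (A0 • X0.D + P0))) q = 0 := by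
  rw [X0.r_add', X1.r_add', X0.r_nsmul, X1.r_nsmul, hnm] at hrel
  -- `(A0 + A1) v = P1 - P0` on `D`
  have hrel' : (A0 + A1) • X0.r X0.D = X1.r P1 - X0.r P0 := by
    rw [add_smul, eq_sub_iff_add_eq]
    calc A0 • X0.r X0.D + A1 • X0.r X0.D + X0.r P0
        = (A0 • X0.r X0.D + X0.r P0) + A1 • X0.r X0.D := by abel
      _ = (A1 • -X0.r X0.D + X1.r P1) + A1 • X0.r X0.D := by rw [hrel]
      _ = X1.r P1 := by rw [smul_neg]; abel
  by_cases hv : Tor (X0.r X0.D)
  · -- the normal bundle is torsion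
    left
    have hT : Tor (X0.r P0 - X1.r P1) := by
      have h1 : X0.r P0 - X1.r P1 = -((A0 + A1) • X0.r X0.D) := by rw [hrel']; abel
      rw [h1]
      exact (hv.nsmul _).neg
    exact ⟨hv, hdir P0 P1 hP0 hP1 hT⟩
  · -- the normal bundle is not torsion, `D` is abelian
    right
    have hA : S.Ab := by
      by_contra hcon
      exact hv (S.null_tor hcon _ hnull0)
    have hT0 : ¬ Tor P0 := by
      rintro ⟨l, hl, h0⟩
      have e : (l * (A0 + A1)) • X1.r X1.D = X1.r (-(l • P1)) := by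
        rw [hnm, smul_neg, X1.r_neg, X1.r_nsmul, mul_smul, hrel', smul_sub, ← X0.r_nsmul, h0,
          X0.r_zero, sub_zero]
      have h1 := X1.tor_of_eq hA hnull1 (l * (A0 + A1))
        (Nat.mul_pos hl (by omega)) _ (X1.pic0_neg' _ (X1.pic0_nsmul _ hl _ hP1)) e
      have h2 : Tor P1 := Tor.of_nsmul hl (by simpa using h1.neg)
      apply hv
      refine Tor.of_nsmul (n := A0 + A1) (by omega) ?_
      rw [hrel']
      obtain ⟨m, hm, hm0⟩ := h2
      have h3 : Tor (X1.r P1) := ⟨m, hm, by rw [← X1.r_nsmul, hm0, X1.r_zero]⟩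
      have h4 : Tor (X0.r P0) := ⟨l, hl, by rw [← X0.r_nsmul, h0, X0.r_zero]⟩
      exact h3.sub h4
    have hT1 : ¬ Tor P1 := by
      rintro ⟨l, hl, h0⟩
      have e : (l * (A0 + A1)) • X0.r X0.D = X0.r (-(l • P0)) := by
        rw [X0.r_neg, X0.r_nsmul, mul_smul, hrel', smul_sub, ← X1.r_nsmul, h0,
          X1.r_zero, zero_sub]
      have h1 := X0.tor_of_eq hA hnull0 (l * (A0 + A1))
        (Nat.mul_pos hl (by omega)) _ (X0.pic0_neg' _ (X0.pic0_nsmul _ hl _ hP0)) e
      exact hT0 (Tor.of_nsmul hl (by simpa using h1.neg))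
    intro j hj
    have hne : X0.r (j • (A0 • X0.D + P0)) ≠ 0 := by
      intro h0
      rw [smul_add, ← mul_smul, X0.r_add', X0.r_nsmul] at h0
      have h1 : (j * A0) • X0.r X0.D = X0.r (-(j • P0)) := by
        rw [X0.r_neg]
        exact eq_neg_of_add_eq_zero_left h0
      have h2 := X0.tor_of_eq hA hnull0 (j * A0) (Nat.mul_pos hj hA0) _
        (X0.pic0_neg' _ (X0.pic0_nsmul _ hj _ hP0)) h1
      exact hT0 (Tor.of_nsmul hj (by simpa using h2.neg))
    refine ⟨?_, ?_, ?_⟩
    · rw [smul_add, ← mul_smul]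
      exact X0.acyclic hA hnull0 _ (X0.pic0_nsmul _ hj _ hP0)
        (fun h => hT0 (Tor.of_nsmul hj h)) _
    · rw [smul_add, ← mul_smul]
      exact X1.acyclic hA hnull1 _ (X1.pic0_nsmul _ hj _ hP1)
        (fun h => hT1 (Tor.of_nsmul hj h)) _
    · refine S.null_acyclic' hA _ ?_ hne
      rw [smul_add, ← mul_smul, X0.r_add', X0.r_nsmul]
      refine S.null_add' _ _ ?_ (X0.pic0_null _ (X0.pic0_nsmul _ hj _ hP0))
      obtain ⟨n, hn'⟩ : ∃ n, j * A0 = n + 1 := ⟨j * A0 - 1, by
        have := Nat.mul_pos hj hA0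
        omega⟩
      rw [hn']
      exact S.null_succ hnull0 n

end Comp

/-- Two elements of square one which generate a finite group modulo the centre: a power of the
product is trivial. -/
theorem exists_pow_of_involutions {G : Type} [Group G] (hG : FinMod G) (a b : G)
    (ha : a * a = 1) (hb : b * b = 1) : Fin2 a b := by
  classical
  obtain ⟨S, hS⟩ := hG
  choose f hf hc using hS
  -- two powers with the same representative
  have hni : ¬ Function.Injective fun k : ℕ => f ((a * b) ^ k) := by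
    intro hinj
    refine Set.infinite_range_of_injective hinj (S.finite_toSet.subset ?_)
    rintro _ ⟨k, rfl⟩
    exact hf _
  rw [Function.not_injective_iff] at hni
  obtain ⟨i, j, hij, hne⟩ := hni
  have key : ∀ i j : ℕ, i < j → f ((a * b) ^ i) = f ((a * b) ^ j) →
      ∃ k : ℕ, 0 < k ∧ (a * b) ^ k = 1 := by
    intro i j hij h
    obtain ⟨k, rfl⟩ := Nat.exists_eq_add_of_lt hij
    have hcen : ∀ w, (a * b) ^ (k + 1) * w = w * (a * b) ^ (k + 1) := by
      have h1 := hc ((a * b) ^ i)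
      have h2 := hc ((a * b) ^ (i + k + 1))
      rw [← h] at h2
      generalize f ((a * b) ^ i) = v at h1 h2
      have e : (a * b) ^ (k + 1) = (v⁻¹ * (a * b) ^ i)⁻¹ * (v⁻¹ * (a * b) ^ (i + k + 1)) := by
        have e3 : (a * b) ^ (i + k + 1) = (a * b) ^ i * (a * b) ^ (k + 1) := by
          rw [← pow_add, add_assoc]
        rw [e3, mul_inv_rev, inv_inv, mul_assoc, mul_inv_cancel_left, inv_mul_cancel_left]
      intro w
      rw [e]
      have h1' : (v⁻¹ * (a * b) ^ i)⁻¹ * w = w * (v⁻¹ * (a * b) ^ i)⁻¹ := by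
        have := h1 w
        calc (v⁻¹ * (a * b) ^ i)⁻¹ * w
            = (v⁻¹ * (a * b) ^ i)⁻¹ * (w * (v⁻¹ * (a * b) ^ i)) * (v⁻¹ * (a * b) ^ i)⁻¹ := by
              group
          _ = (v⁻¹ * (a * b) ^ i)⁻¹ * ((v⁻¹ * (a * b) ^ i) * w) * (v⁻¹ * (a * b) ^ i)⁻¹ := by
              rw [this]
          _ = w * (v⁻¹ * (a * b) ^ i)⁻¹ := by group
      rw [mul_assoc, h2, ← mul_assoc, h1', mul_assoc]
    have e1 : a⁻¹ = a := inv_eq_of_mul_eq_one_left ha
    have e2 : b⁻¹ = b := inv_eq_of_mul_eq_one_left hb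
    have hconj : a * (a * b) * a⁻¹ = (a * b)⁻¹ := by
      rw [mul_inv_rev, e1, e2, ← mul_assoc, ha, one_mul]
    have h3 : a * (a * b) ^ (k + 1) * a⁻¹ = ((a * b) ^ (k + 1))⁻¹ := by
      rw [← conj_pow, hconj, inv_pow]
    have h4 : (a * b) ^ (k + 1) = ((a * b) ^ (k + 1))⁻¹ := by
      rw [← h3, ← hcen a, mul_assoc, mul_inv_cancel, mul_one]
    refine ⟨(k + 1) + (k + 1), by omega, ?_⟩
    rw [pow_add]
    nth_rewrite 1 [h4]
    exact inv_mul_cancel _
  rcases Nat.lt_or_gt_of_ne hne with h | h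
  · exact key i j h hij
  · exact key j i h hij.symm

namespace OneGerm

variable {P : Type} [AddCommGroup P] {g : Germ P} {One Semi : P → Prop} (T : OneGerm g One Semi)

lemma normal' (mu : g.Mo) :
    (T.comp mu true).r (T.comp mu true).D = -(T.comp mu false).r (T.comp mu false).D := T.normal mu

lemma res_nsmul' (mu : g.Mo) (i : Bool) (x : g.Lam) (n : ℕ) (h : g.Car mu x) :
    T.res mu i (n • x) = n • T.res mu i x := T.res_nsmul mu i x n h

lemma insert' (mu : g.Mo) (x : g.Lam) (hx : g.Nef mu x) (hc : g.Car mu x)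
    (hv : Tor ((T.comp mu false).r (T.comp mu false).D))
    (h : ∀ i, ∃ n a : ℕ, 0 < n ∧ 0 < a ∧ n • T.res mu i x = a • (T.comp mu i).D) :
    Semi (g.rho x) := T.insert mu x hx hc hv h

lemma V_add' : T.V false + T.V true = 0 := T.V_add

lemma rho_V' (i : Bool) : g.rho (T.V i) = 0 := T.rho_V i

include T in
lemma nef_add' (mu : g.Mo) (x y : g.Lam) (hx : g.Nef mu x) (hy : g.Nef mu y) : g.Nef mu (x + y) :=
  T.nef_add mu x y hx hy

lemma q_add1 (mu : g.Mo) (i : Bool) (x y z : g.Lam) :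
    T.q mu i (x + y) z = T.q mu i x z + T.q mu i y z := T.q_add mu i x y z

lemma d_add' (mu : g.Mo) (i : Bool) (x y : g.Lam) : T.d mu i (x + y) = T.d mu i x + T.d mu i y :=
  T.d_add mu i x y

lemma hodge' (mu : g.Mo) (i : Bool) (y : g.Lam) (hy : g.Nef mu y) (h1 : T.q mu i y y = 0)
    (h2 : T.q mu i y (T.V i) = 0) (h3 : T.q mu i (T.V i) (T.V i) = 0) (h4 : T.d mu i y ≠ 0) :
    (T.S mu).Null ((T.comp mu i).r (T.comp mu i).D) ∧ ∃ (n a : ℕ) (p : (T.comp mu i).C),
      0 < n ∧ 0 < a ∧ (T.comp mu i).Pic0 p ∧ (∀ j : ℕ, g.Car mu (j • n • y)) ∧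
        T.res mu i (n • y) = a • (T.comp mu i).D + p := T.hodge mu i y hy h1 h2 h3 h4

lemma mmp' (mu : g.Mo) (i : Bool) (x : g.Lam) (hx : g.Nef mu x)
    (h : ∀ mu', g.Nef mu' x → ∀ j : ℕ, ¬ g.Nef mu' (j • x + T.V i)) : T.Fib i x :=
  T.mmp mu i x hx h

lemma fib_nsmul' (i : Bool) (x : g.Lam) (k : ℕ) (h : T.Fib i x) : T.Fib i (k • x) :=
  T.fib_nsmul i x k h

lemma mumford' (mu : g.Mo) (x : g.Lam) (hx : g.Nef mu x) (hq : T.q mu false x x = 0)
    (hc : ∀ j : ℕ, g.Car mu (j • x)) :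
    (∀ j : ℕ, 0 < j → ∀ q, (T.S mu).h ((T.comp mu false).r (T.res mu false (j • x))) q = 0) ∨
      T.SAD mu x := T.mumford mu x hx hq hc

lemma q_add' (mu : g.Mo) (i : Bool) (x y z : g.Lam) :
    T.q mu i z (x + y) = T.q mu i z x + T.q mu i z y := by
  rw [T.q_symm, T.q_add1, T.q_symm mu i x, T.q_symm mu i y]

lemma V_not (i : Bool) : T.V (!i) = -T.V i := by
  have h := T.V_add'
  cases i
  · exact (neg_eq_of_add_eq_zero_right h).symm
  · exact (neg_eq_of_add_eq_zero_left h).symm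

include T in
lemma nef_nsmul (mu : g.Mo) (x : g.Lam) (hx : g.Nef mu x) (n : ℕ) : g.Nef mu ((n + 1) • x) := by
  induction n with
  | zero => simpa using hx
  | succ n ih => rw [add_smul _ 1, one_smul]; exact T.nef_add' _ _ _ ih hx

/-- The result for a class `y` in the interior. -/
theorem aux (mu : g.Mo) (y : g.Lam) (hn : ∀ i, T.d mu i y ≠ 0) (hy : g.Nef mu y)
    (hyy : ∀ i, T.q mu i y y = 0) (hyV : ∀ i, T.q mu i y (T.V i) = 0)
    (hVV : ∀ i, T.q mu i (T.V i) (T.V i) = 0) :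
    ∃ k : ℕ, 0 < k ∧ ((∀ j : ℕ, 0 < j → g.Car mu (j • k • y) ∧ g.Acyclic mu (j • k • y)) ∨
      Semi (g.rho (k • y))) := by
  obtain ⟨hnull0, n0, a0, p0, hn0, ha0, hp0, hc0, hr0⟩ :=
    T.hodge' mu false y hy (hyy _) (hyV _) (hVV _) (hn _)
  obtain ⟨hnull1, n1, a1, p1, hn1, ha1, hp1, hc1, hr1⟩ :=
    T.hodge' mu true y hy (hyy _) (hyV _) (hVV _) (hn _)
  -- the common multiple `Y`
  have hk : 0 < n0 * n1 := Nat.mul_pos hn0 hn1
  have hC : ∀ j : ℕ, g.Car mu (j • (n0 * n1) • y) := by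
    intro j
    have h := hc0 (j * n1)
    rwa [mul_smul, smul_comm n1, ← mul_smul n0] at h
  have hC1 : g.Car mu ((n0 * n1) • y) := by simpa using hC 1
  have hCn0 : g.Car mu (n0 • y) := by simpa using hc0 1
  have hCn1 : g.Car mu (n1 • y) := by simpa using hc1 1
  have hR0 : T.res mu false ((n0 * n1) • y) =
      (n1 * a0) • (T.comp mu false).D + n1 • p0 := by
    rw [mul_comm, mul_smul, T.res_nsmul' mu false _ _ hCn0, hr0, smul_add, mul_smul]
  have hR1 : T.res mu true ((n0 * n1) • y) = (n0 * a1) • (T.comp mu true).D + n0 • p1 := by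
    rw [mul_smul, T.res_nsmul' mu true _ _ hCn1, hr1, smul_add, mul_smul]
  have hP0 := (T.comp mu false).pic0_nsmul _ hn1 _ hp0
  have hP1 := (T.comp mu true).pic0_nsmul _ hn0 _ hp1
  have hA0 : 0 < n1 * a0 := Nat.mul_pos hn1 ha0
  have hA1 : 0 < n0 * a1 := Nat.mul_pos hn0 ha1
  have hrel := T.res_D mu _ hC1
  rw [hR0, hR1] at hrel
  refine ⟨n0 * n1, hk, ?_⟩
  rcases Comp.pair (T.comp mu false) (T.comp mu true)
    (T.normal' mu) hnull0 hnull1 (T.direct mu) _ _ hA0 hA1 _ _ hP0 hP1 hrel with h | h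
  · right
    obtain ⟨hv, ⟨l0, hl0, h0⟩, ⟨l1, hl1, h1⟩⟩ := h
    have hnef : g.Nef mu ((n0 * n1) • y) := by
      obtain ⟨k, hk'⟩ : ∃ k, n0 * n1 = k + 1 := ⟨n0 * n1 - 1, by omega⟩
      rw [hk']
      exact T.nef_nsmul mu y hy k
    refine T.insert' mu _ hnef hC1 hv ?_
    intro i
    cases i
    · refine ⟨l0, l0 * (n1 * a0), hl0, Nat.mul_pos hl0 hA0, ?_⟩
      rw [hR0, smul_add, h0, add_zero, mul_smul l0]
    · refine ⟨l1, l1 * (n0 * a1), hl1, Nat.mul_pos hl1 hA1, ?_⟩
      rw [hR1, smul_add, h1, add_zero, mul_smul l1]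
  · left
    intro j hj
    obtain ⟨h0, h1, h2⟩ := h j hj
    refine ⟨hC j, T.mayer mu _ (hC j) ?_ ?_⟩
    · intro i
      cases i
      · rw [T.res_nsmul' mu false _ _ hC1, hR0]; exact h0
      · rw [T.res_nsmul' mu true _ _ hC1, hR1]; exact h1
    · rw [T.res_nsmul' mu false _ _ hC1, hR0]; exact h2

/-- If `x` and `j x + V_i` are nef on the same model, `x` of numerical dimension one on the generic
fibre. -/
theorem inner (hon : ∀ (L : P) (k : ℕ), 0 < k → One L → One (k • L))
    (hse : ∀ (L : P) (k : ℕ), 0 < k → Semi (k • L) → Semi L) (mu : g.Mo) (x : g.Lam)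
    (hx : g.Nef mu x) (h1 : One (g.rho x)) (j : ℕ) (i0 : Bool)
    (hj : g.Nef mu (j • x + T.V i0)) : g.Good (g.rho x) ∨ Semi (g.rho x) := by
  -- `w = (j + 1) x + V`, `y = (j + 1) x + w`
  obtain ⟨w, hw⟩ : ∃ w, w = (j + 1) • x + T.V i0 := ⟨_, rfl⟩
  have hwn : g.Nef mu w := by
    have e : w = x + (j • x + T.V i0) := by rw [hw, add_smul, one_smul]; abel
    rw [e]
    exact T.nef_add' _ _ _ hx hj
  obtain ⟨y, hy⟩ : ∃ y, y = (j + 1) • x + w := ⟨_, rfl⟩
  have hxj := T.nef_nsmul mu x hx j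
  have hyn : g.Nef mu y := by rw [hy]; exact T.nef_add' _ _ _ hxj hwn
  have hplus : g.Nef mu (y + y + T.V i0) := by
    have e : y + y + T.V i0 = (j + 1) • x + (w + w + w) := by
      rw [hy, hw]; abel
    rw [e]
    exact T.nef_add' _ _ _ hxj (T.nef_add' _ _ _ (T.nef_add' _ _ _ hwn hwn) hwn)
  have hminus : g.Nef mu (y + y + T.V (!i0)) := by
    have e : y + y + T.V (!i0) = (j + 1) • x + (j + 1) • x + (j + 1) • x + w := by
      rw [hy, hw, T.V_not]; abel
    rw [e]
    exact T.nef_add' _ _ _ (T.nef_add' _ _ _ (T.nef_add' _ _ _ hxj hxj) hxj) hwn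
  have hboth : ∀ i, g.Nef mu (y + y + T.V i) := by
    intro i
    cases i <;> cases i0 <;> assumption
  -- restrictions to the generic fibre
  have hrV : ∀ i, g.rho (T.V i) = 0 := T.rho_V'
  have hrw : g.rho w = (j + 1) • g.rho x := by
    rw [hw, map_add, map_nsmul, hrV, add_zero]
  have hry : g.rho y = (2 * (j + 1)) • g.rho x := by
    rw [hy, map_add, map_nsmul, hrw, ← add_smul]
    congr 1
    omega
  have hone : One (g.rho y) := by
    rw [hry]
    exact hon _ _ (by omega) h1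
  have hone2 : ∀ i, One (g.rho (y + y + T.V i)) := by
    intro i
    have : g.rho (y + y + T.V i) = (2 * (2 * (j + 1))) • g.rho x := by
      rw [map_add, map_add, hrV, add_zero, hry, ← add_smul]
      congr 1
      omega
    rw [this]
    exact hon _ _ (by omega) h1
  -- squares are zero
  have hsq : ∀ z, g.Nef mu z → One (g.rho z) → ∀ i, T.q mu i z z = 0 := by
    intro z hz hz1 i
    have h := T.q_sum mu z hz1
    have ha := T.q_nonneg mu false z hz
    have hb := T.q_nonneg mu true z hz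
    cases i <;> linarith
  have hyy := hsq y hyn hone
  have hexp : ∀ i e, T.q mu i (y + y + T.V e) (y + y + T.V e) =
      4 * T.q mu i y y + 4 * T.q mu i y (T.V e) + T.q mu i (T.V e) (T.V e) := by
    intro i e
    simp only [T.q_add1, T.q_add']
    rw [T.q_symm mu i (T.V e) y]
    ring
  have hqz : ∀ i z, T.q mu i z (-T.V i0) = -T.q mu i z (T.V i0) := by
    intro i z
    have h1 := T.q_add' mu i (T.V i0) (-T.V i0) z
    have h2 := T.q_add' mu i 0 0 z
    rw [add_neg_cancel] at h1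
    rw [add_zero] at h2
    linarith
  have hqz' : ∀ i z, T.q mu i (-T.V i0) z = -T.q mu i (T.V i0) z := by
    intro i z
    rw [T.q_symm, hqz, T.q_symm]
  have hyV0 : ∀ i, T.q mu i y (T.V i0) = 0 ∧ T.q mu i (T.V i0) (T.V i0) = 0 := by
    intro i
    have e1 := hexp i i0
    have e2 := hexp i (!i0)
    rw [hsq _ hplus (hone2 _) i, hyy i] at e1
    rw [hsq _ hminus (hone2 _) i, hyy i, T.V_not, hqz, hqz, hqz'] at e2
    constructor <;> linarith
  have hyV : ∀ i, T.q mu i y (T.V i) = 0 ∧ T.q mu i (T.V i) (T.V i) = 0 := by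
    intro i
    by_cases h : i = i0
    · rw [h]; exact hyV0 i0
    · have e : T.V i = -T.V i0 := by
        have hi : i = !i0 := Bool.eq_not_of_ne h
        rw [hi, T.V_not]
      rw [e, hqz, hqz, hqz', (hyV0 i).1, (hyV0 i).2]
      simp
  -- the degrees are positive
  have hd : ∀ i, T.d mu i y ≠ 0 := by
    intro i h0
    have h := T.d_nonneg mu i _ (hboth i)
    rw [T.d_add', T.d_add', h0] at h
    have := T.d_neg mu i
    linarith
  obtain ⟨k, hk, h⟩ := T.aux mu y hd hyn hyy (fun i => (hyV i).1) (fun i => (hyV i).2)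
  have hK : 0 < k * (2 * (j + 1)) := by positivity
  have hrk : g.rho (k • y) = (k * (2 * (j + 1))) • g.rho x := by
    rw [map_nsmul, hry, smul_smul]
  rcases h with h | h
  · exact Or.inl ⟨mu, k * (2 * (j + 1)), k • y, hK, hrk, h⟩
  · rw [hrk] at h
    exact Or.inr (hse _ _ hK h)

include T in
/-- Let `x` be nef on a model, of numerical dimension one on the generic fibre. Then an extension of
a multiple of `x` is acyclic on `X_b` with all its multiples, or a multiple of `x` is semiample on the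
special fibre of a suitable model. -/
theorem result (hon : ∀ (L : P) (k : ℕ), 0 < k → One L → One (k • L))
    (hse : ∀ (L : P) (k : ℕ), 0 < k → Semi (k • L) → Semi L)
    (hqf : ∀ mu x, ∃ k : ℕ, 0 < k ∧ ∀ j : ℕ, g.Car mu (j • k • x)) (mu : g.Mo) (x : g.Lam)
    (hx : g.Nef mu x) (h1 : One (g.rho x)) : g.Good (g.rho x) ∨ Semi (g.rho x) := by
  by_cases h : ∃ i mu', g.Nef mu' x ∧ ∃ j : ℕ, g.Nef mu' (j • x + T.V i)
  · obtain ⟨i, mu', hx', j, hj⟩ := h
    exact T.inner hon hse mu' x hx' h1 j i hj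
  · push Not at h
    have hF : ∀ i, T.Fib i x := fun i => T.mmp' mu i x hx (h i)
    obtain ⟨k, hk, hcar⟩ := hqf mu x
    -- the Cartier multiple `y = k x`
    obtain ⟨n, rfl⟩ : ∃ n, k = n + 1 := ⟨k - 1, by omega⟩
    have hy : g.Nef mu ((n + 1) • x) := T.nef_nsmul mu x hx n
    have hFy : ∀ i, T.Fib i ((n + 1) • x) := fun i => T.fib_nsmul' i x _ (hF i)
    have hry : g.rho ((n + 1) • x) = (n + 1) • g.rho x := map_nsmul _ _ _
    have hone : One (g.rho ((n + 1) • x)) := by
      rw [hry]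
      exact hon _ _ (Nat.succ_pos n) h1
    generalize (n + 1) • x = y at hcar hy hFy hone hry
    have hcar' : ∀ j : ℕ, g.Car mu (j • y) := hcar
    have hq : T.q mu false y y = 0 := by
      have h := T.q_sum mu y hone
      have ha := T.q_nonneg mu false y hy
      have hb := T.q_nonneg mu true y hy
      linarith
    rcases T.mumford' mu y hy hq hcar' with h0 | h0
    · left
      refine ⟨mu, n + 1, y, Nat.succ_pos n, hry, fun j hj => ?_⟩
      have hnefj : g.Nef mu (j • y) := by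
        obtain ⟨m, rfl⟩ : ∃ m, j = m + 1 := ⟨j - 1, by omega⟩
        exact T.nef_nsmul mu y hy m
      refine ⟨hcar' j, T.mayer mu _ (hcar' j) (fun i => ?_) (h0 j hj)⟩
      exact T.fib_acyclic mu i _ hnefj (hcar' j) (T.fib_nsmul' i y j (hFy i)) (h0 j hj)
    · right
      choose l hl hl2 using fun i => T.cover mu i y hy h0 (hFy i)
      have hs : Semi (g.rho y) := T.glue mu y hy h0 hone hFy l hl
        (exists_pow_of_involutions (T.lin_fin mu y hy h0 hone hFy) (l false) (l true) (hl2 false)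
          (hl2 true))
      rw [hry] at hs
      exact hse _ _ (Nat.succ_pos n) hs

end OneGerm

end Pool.Agent.H33.MN
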