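import Pool.Agent.H33.MN.Iface

/-!
# MP_5ee2d0_ag, Theorem N: special fibres with two components, classes of numerical dimension one

The special fibre is `X_b = V_0 ∪ V_1`. All models are `Q`-factorial with canonical singularities, the
`V_i` are klt, `D = V_0 ∩ V_1` is a normal surface with Du Val singularities and `K_D = 0`, the pairs
`(V_i, D)` are plt and `K + D ~ 0` on `V_i`. The double surface `D` is an abelian surface, or its
minimal resolution is a K3 surface; nothing is assumed on its orbifold Euler number.
-/

namespace Pool.Agent.H33.MN

/-- `x + y` -/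
def pl {C : Type} [AddCommGroup C] (x y : C) : C := x + y

/-- `x - y` -/
def mi {C : Type} [AddCommGroup C] (x y : C) : C := x - y

/-- `-x` -/
def ng {C : Type} [AddCommGroup C] (x : C) : C := -x

/-- `n x` -/
def ml {C : Type} [AddCommGroup C] (n : ℕ) (x : C) : C := n • x

/-- `z` is zero -/
def Zr {C : Type} [AddCommGroup C] (z : C) : Prop := z = 0

/-- `z` is a torsion element -/
def Tor {C : Type} [AddCommGroup C] (z : C) : Prop := ∃ k : ℕ, 0 < k ∧ k • z = 0

/-- finitely many elements represent all classes modulo the centre of the group -/
def FinMod (G : Type) [Group G] : Prop :=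
  ∃ S : Finset G, ∀ u : G, ∃ v ∈ S, ∀ w, (v⁻¹ * u) * w = w * (v⁻¹ * u)

/-- the square of `l` is trivial -/
def Two {G : Type} [Group G] (l : G) : Prop := l * l = 1

/-- a positive power of the product of `a` and `b` is trivial -/
def Fin2 {G : Type} [Group G] (a b : G) : Prop := ∃ k : ℕ, 0 < k ∧ (a * b) ^ k = 1

/-- the restriction of `x` to the geometric generic fibre -/
def Germ.gen {P : Type} [AddCommGroup P] (g : Germ P) (x : g.Lam) : P := g.rho x

/-- The double surface `D`. -/
structure Surf where
  /-- the group of Weil divisor classes -/
  P : Type
  [grp : AddCommGroup P]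
  /-- numerically trivial classes -/
  Null : P → Prop
  null_add : ∀ w w', Null w → Null w' → Null (pl w w')
  null_neg : ∀ w, Null w → Null (ng w)
  /-- the dimension of `H^q(D, O(w))` -/
  h : P → ℕ → ℕ
  /-- `D` is an abelian surface -/
  Ab : Prop
  /-- Mumford, Abelian Varieties, II.8 -/
  null_acyclic : Ab → ∀ w, Null w → ¬ Zr w → ∀ q, h w q = 0
  /-- otherwise `H^1(D, O) = 0` -/
  null_tor : ¬ Ab → ∀ w, Null w → Tor w

attribute [instance] Surf.grp

/-- A component `V` of the special fibre. -/
structure Comp (S : Surf) where
  /-- the group of the classes of Weil divisors of `V` which have a Cartier multiple -/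
  C : Type
  [grp : AddCommGroup C]
  /-- the dimension of `H^q(V, O(z))` -/
  h : C → ℕ → ℕ
  /-- the class of `D` -/
  D : C
  /-- the restriction to `D` (the double surface of the same model); `V` is smooth and `D` is Cartier
  at all but finitely many points of `D` because `K + D` is Cartier -/
  r : C → S.P
  r_add : ∀ z y, r (pl z y) = pl (r z) (r y)
  /-- the subgroup `Pic^0(V)`: it is zero if `D` is not abelian, and the pull back of `Pic^0` of the
  Albanese curve otherwise -/
  Pic0 : C → Prop
  pic0_add : ∀ z y, Pic0 z → Pic0 y → Pic0 (pl z y)
  pic0_neg : ∀ z, Pic0 z → Pic0 (ng z)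
  pic0_null : ∀ z, Pic0 z → S.Null (r z)
  /-- `H^1(V, O) → H^1(D, O)` is injective, so `Pic^0(V) → Pic^0(D)` has a finite kernel -/
  pic0_ker : ∀ z, Pic0 z → Tor (r z) → Tor z
  /-- the cohomology sequence of `O(z - D) → O(z) → O_D(z)` (the sheaves `O(z)` are Cohen-Macaulay
  since `V` is klt) -/
  seq : ∀ z, (∀ q, S.h (r z) q = 0) → (∀ q, h (mi z D) q = 0) → ∀ q, h z q = 0
  /-- A class of `Pic^0(V)` which is not torsion has no cohomology. Then `D` is abelian and `Pic^0(V)`
  has dimension one. Simpson: the locus of `h^2` is a union of translates of abelian subvarieties by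
  torsion points; it does not contain `0` since `h^2(V, O) = 0`, so it consists of torsion points.
  Outside of it `h^0 = h^3 = 0`, and `h^1 = 0` because `χ(V, O) = 0`. -/
  simpson : ∀ z, Pic0 z → ¬ Tor z → ∀ q, h z q = 0
  /-- there is an effective divisor of class `z` which does not meet `D` -/
  Sec : C → Prop
  /-- if `z` is trivial on `D` and `H^1(V, O(z - D)) = 0` then the section `1` on `D` lifts -/
  sec : ∀ z, Zr (r z) → h (mi z D) 1 = 0 → Sec z
  /-- If `kD - z`, `k > 0`, `z` in `Pic^0(V)`, is the class of an effective divisor `D'` disjoint from
  `D`, then for small `u > 0` the pair `(V, (1 - u) D + (u / k) D')` is klt and its log canonical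
  divisor is `-(u / k) z`, numerically trivial, and so torsion (Kawamata, Nakayama, Ambro). -/
  abundance : ∀ (k : ℕ) z, 0 < k → Pic0 z → Sec (mi (ml k D) z) → Tor z

attribute [instance] Comp.grp

/-- The germ of the family at a prime divisor of the base with special fibre `X_b = V_0 ∪ V_1`;
`V_i` is `V false`, `V true`. `One L` says that `L` has numerical dimension one. `Semi L` says that
there is a `K`-trivial model over a finite extension of the local ring of `b` and a class `x` on it,
whose restriction to the generic fibre is a positive multiple of `L`, such that `x` is nef and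
semiample on the special fibre. -/
structure OneGerm {P : Type} [AddCommGroup P] (g : Germ P) (One Semi : P → Prop) where
  /-- the double surface of the model; its minimal resolution does not depend on the model -/
  S : g.Mo → Surf
  /-- The components. If `D` is abelian then `h^1(V_i, O) = 1`: since `h^1(X_b, O) = h^2(X_b, O) = 0`,
  `H^1(D, O)` is the direct sum of the `H^1(V_i, O)`; if `h^1(V_i, O) = 2` then `V_i` is a conic bundle
  over its Albanese surface, `D` is an etale double cover of it, but the residues of the holomorphic
  3-form with a simple pole on `D` at the two points of a conic are opposite. -/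
  comp : ∀ mu, Bool → Comp (S mu)
  /-- the normal bundles of `D` in `V_0` and `V_1` are dual to each other: the total space is given by
  `x y = t^m` at all but finitely many points of `D` -/
  normal : ∀ mu, (comp mu true).r (comp mu true).D = ng ((comp mu false).r (comp mu false).D)
  /-- the restriction to `V_i` of a Cartier class -/
  res : ∀ mu i, g.Lam → (comp mu i).C
  res_nsmul : ∀ mu i x (n : ℕ), g.Car mu x → res mu i (ml n x) = ml n (res mu i x)
  res_D : ∀ mu x, g.Car mu x →
    (comp mu false).r (res mu false x) = (comp mu true).r (res mu true x)
  /-- `H^1(V_0, O) ∩ H^1(V_1, O) = 0` in `H^1(D, O)` because `H^1(X_b, O) = 0` -/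
  direct : ∀ mu p p', (comp mu false).Pic0 p → (comp mu true).Pic0 p' →
    Tor (mi ((comp mu false).r p) ((comp mu true).r p')) → Tor p ∧ Tor p'
  /-- Mayer-Vietoris sequence -/
  mayer : ∀ mu x, g.Car mu x → (∀ i q, (comp mu i).h (res mu i x) q = 0) →
    (∀ q, (S mu).h ((comp mu false).r (res mu false x)) q = 0) → g.Acyclic mu x
  /-- Suppose that the normal bundle is torsion and that a multiple of `x` is on `V_i` a multiple of
  `D`, for both `i`. After a base change `XX` is locally at `D` of the form: the index one covering of
  `V_0` (as a divisor of `XX`), of order `r`, is flat over the plane with coordinates `u`, `v`, `V_0` and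
  `V_1` are `u = 0` and `v = 0`, the fibre over the origin is a covering `D'` of `D` with Du Val
  singularities, and the covering group acts on the plane by `(ζ u, ζ^(-1) v)`. So the blow up of a
  suitable monomial ideal has the special fibre `V_0 ∪ W ∪ V_1`, `W` is locally the quotient of
  `D' × P^1` by the group, with the disjoint sections `D_0`, `D_1`. If `x` is `c_i D` on `V_i` there is a
  rational combination `N = x + b_0 V_0 + b_1 V_1` which is trivial on `V_0` and on `V_1` and equal to
  `c_0 D_0 + c_1 D_1` on `W` (up to torsion). The difference of `D_0` and `D_1` is the pull back of the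
  normal bundle, torsion: multiples of `D_0` and `D_1` are linearly equivalent and span a pencil without
  base points on `W`; a power of the line bundle given by `N` has sections which are constant on `D_0`
  and on `D_1`, extend to `V_0 ∪ W ∪ V_1`, and have no common zeros. -/
  insert : ∀ mu x, g.Nef mu x → g.Car mu x → Tor ((comp mu false).r (comp mu false).D) →
    (∀ i, ∃ n a : ℕ, 0 < n ∧ 0 < a ∧ ml n (res mu i x) = ml a (comp mu i).D) → Semi (g.gen x)
  /-- the classes of the components of `X_b`, which is a principal divisor -/
  V : Bool → g.Lam
  V_add : Zr (pl (V false) (V true))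
  rho_V : ∀ i, Zr (g.gen (V i))
  nef_add : ∀ mu x y, g.Nef mu x → g.Nef mu y → g.Nef mu (pl x y)
  /-- the intersection numbers `x.y.A.V_i`, `A` ample on the model -/
  q : g.Mo → Bool → g.Lam → g.Lam → ℚ
  q_add : ∀ mu i x y z, q mu i (pl x y) z = q mu i x z + q mu i y z
  q_symm : ∀ mu i x y, q mu i x y = q mu i y x
  q_nonneg : ∀ mu i x, g.Nef mu x → 0 ≤ q mu i x x
  /-- the sum is the intersection number on the generic fibre -/
  q_sum : ∀ mu x, One (g.gen x) → q mu false x x + q mu true x x = 0
  /-- the intersection numbers `x.A.A.V_i` -/
  d : g.Mo → Bool → g.Lam → ℚ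
  d_add : ∀ mu i x y, d mu i (pl x y) = d mu i x + d mu i y
  d_nonneg : ∀ mu i x, g.Nef mu x → 0 ≤ d mu i x
  d_neg : ∀ mu i, d mu i (V i) < 0
  /-- Hodge index theorem on a general surface in the class `A` on `V_i`: a multiple of the nef class
  `y` is numerically equivalent on `V_i` to a multiple of `D`, nonzero if `y.A.A.V_i ≠ 0`, and then
  `D` is numerically trivial on itself -/
  hodge : ∀ mu i y, g.Nef mu y → q mu i y y = 0 → q mu i y (V i) = 0 → q mu i (V i) (V i) = 0 →
    d mu i y ≠ 0 → (S mu).Null ((comp mu i).r (comp mu i).D) ∧ ∃ (n a : ℕ) (p : (comp mu i).C),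
      0 < n ∧ 0 < a ∧ (comp mu i).Pic0 p ∧ (∀ j : ℕ, g.Car mu (ml j (ml n y))) ∧
        res mu i (ml n y) = pl (ml a (comp mu i).D) p
  /-- after flops of curves of degree zero, `V_i` has a Mori fibration `V_i → Y` (the anticanonical
  divisor, which is linearly equivalent to `D`, is relatively ample), and `x` is on `V_i` the pull back
  of a nef class of `Y` -/
  Fib : Bool → g.Lam → Prop
  /-- cone theorem, existence of flips (Birkar, Cascini, Hacon and McKernan) and termination for the
  threefold `V_i`: if `j x + V_i` is not nef for all `j`, on all models on which `x` is nef, then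
  there is such a Mori fibration -/
  mmp : ∀ mu i x, g.Nef mu x →
    (∀ mu', g.Nef mu' x → ∀ j : ℕ, ¬ g.Nef mu' (pl (ml j x) (V i))) → Fib i x
  fib_nsmul : ∀ i x (k : ℕ), Fib i x → Fib i (ml k x)
  /-- `D` is mapped onto `Y`, so the cohomology of a line bundle of `Y` injects into the cohomology of
  its pull back to `D` (the degree of `D → Y` is two if `Y` is a surface, and the fibres are connected
  curves if `Y` is a curve), and is equal to the cohomology of its pull back to `V_i` (Kawamata,
  Viehweg; `V_i` has rational singularities) -/
  fib_acyclic : ∀ mu i x, g.Nef mu x → g.Car mu x → Fib i x →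
    (∀ q, (S mu).h ((comp mu false).r (res mu false x)) q = 0) → ∀ q, (comp mu i).h (res mu i x) q = 0
  /-- the restriction of `x` to `D` is semiample -/
  SAD : g.Mo → g.Lam → Prop
  /-- Mumford, Abelian Varieties: a nef class of square zero on an abelian surface is semiample or
  all its positive multiples are acyclic; nef classes on K3 surfaces are semiample; `x` has square
  zero on `D` if it has square zero on `V_0` -/
  mumford : ∀ mu x, g.Nef mu x → q mu false x x = 0 → (∀ j : ℕ, g.Car mu (ml j x)) →
    (∀ j : ℕ, 0 < j → ∀ q, (S mu).h ((comp mu false).r (res mu false (ml j x))) q = 0) ∨ SAD mu x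
  /-- A multiple of the semiample class `x` on `D` is the pull back of an ample line bundle of the
  image `B` of `D`. The group of the automorphisms of `B` with this line bundle which are induced by
  automorphisms of the minimal resolution of `D`. -/
  Lin : g.Mo → g.Lam → Type
  [grp : ∀ mu x, Group (Lin mu x)]
  /-- If `x` has numerical dimension one then `B` is a curve, and the group is finite modulo the
  scalars, which are central: `B` is an elliptic curve, or `B` is the projective line and the group
  preserves the set of the critical values, of which there are at least three (with at most two the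
  elliptic fibration would be isotrivial and its Euler number at most 20, but it is 24). -/
  lin_fin : ∀ mu x, g.Nef mu x → SAD mu x → One (g.gen x) → (∀ i, Fib i x) → FinMod (Lin mu x)
  /-- `l` is induced by the covering involution of `D → Y` if `Y` is a surface, and the identity if `Y`
  is a curve -/
  Cover : ∀ mu, Bool → ∀ x, Lin mu x → Prop
  cover : ∀ mu i x, g.Nef mu x → SAD mu x → Fib i x → ∃ l, Cover mu i x l ∧ Two l
  /-- Kollár: gluing by a finite equivalence relation; `x` is semiample on `Y` because it is on `D`,
  and `D` is mapped onto the image of `X_b`, which is a curve -/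
  glue : ∀ mu x, g.Nef mu x → SAD mu x → One (g.gen x) → (∀ i, Fib i x) →
    ∀ l : Bool → Lin mu x, (∀ i, Cover mu i x (l i)) → Fin2 (l false) (l true) → Semi (g.gen x)

attribute [instance] OneGerm.grp

end Pool.Agent.H33.MN
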